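import Pool.Agent.H3.AM.Basic

/-!
# Module F4: the block of `H` above `θ` (trivial inertia group)
-/

open scoped Classical ComplexConjugate

set_option linter.unusedSectionVars false

namespace AMc

namespace H77

section

variable {Γ : Type} [Group Γ] [Fintype Γ] {F : Type} [Field F]

/-- `|P| * |X : P| = |X|` -/
theorem card_mul_relIndex {P X : Subgroup Γ} (h : P ≤ X) :
    Nat.card P * P.relIndex X = Nat.card X := by
  have := Subgroup.relIndex_mul_relIndex ⊥ P X bot_le h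
  rwa [Subgroup.relIndex_bot_left, Subgroup.relIndex_bot_left] at this

theorem relIndex_ne_zero' {P X : Subgroup Γ} (h : P ≤ X) : P.relIndex X ≠ 0 := by
  intro h0
  have := card_mul_relIndex h
  rw [h0, mul_zero] at this
  exact Nat.card_pos.ne' this.symm

theorem card_conj (P : Subgroup Γ) (u : Γ) :
    Nat.card (P.map (MulAut.conj u).toMonoidHom) = Nat.card P :=
  Subgroup.card_map_of_injective (MulAut.conj u).injective

theorem mem_map_conj {P : Subgroup Γ} {u g : Γ} :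
    g ∈ P.map (MulAut.conj u).toMonoidHom ↔ u⁻¹ * g * u ∈ P := by
  constructor
  · rintro ⟨p, hp, rfl⟩
    have : u⁻¹ * ((MulAut.conj u).toMonoidHom p) * u = p := by
      simp only [MulEquiv.coe_toMonoidHom, MulAut.conj_apply]
      group
    rw [this]
    exact hp
  · intro h
    refine ⟨_, h, ?_⟩
    simp only [MulEquiv.coe_toMonoidHom, MulAut.conj_apply]
    group

/-- `DefH` is invariant under conjugation by elements of the group -/
theorem DefH_conj {ℓ : ℕ} {N : Subgroup Γ} {h : MonoidAlgebra F Γ → F} {D : Subgroup Γ}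
    (hD : DefH ℓ N h D) {v : Γ} (hv : v ∈ N) :
    DefH ℓ N h (D.map (MulAut.conj v).toMonoidHom) := by
  obtain ⟨h1, h2, ⟨x, hx, hx1, hx2, hx3⟩, h4⟩ := hD
  have hle : D.map (MulAut.conj v).toMonoidHom ≤ N := by
    intro g hg
    rw [mem_map_conj] at hg
    have := N.mul_mem (N.mul_mem hv (h2 hg)) (N.inv_mem hv)
    have e : v * (v⁻¹ * g * v) * v⁻¹ = g := by group
    rwa [e] at this
  refine ⟨h1.map _, hle, ⟨v * x * v⁻¹, N.mul_mem (N.mul_mem hv hx) (N.inv_mem hv), ?_, ?_, ?_⟩,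
    ?_⟩
  · have : cls N (v * x * v⁻¹) = cls N x :=
      cls_eq_of_mem (mem_cls.2 ⟨v, hv, rfl⟩)
    rwa [this]
  · intro g hg
    rw [mem_map_conj] at hg
    have h5 := hx2 hg
    rw [Subgroup.mem_centralizer_singleton_iff] at h5 ⊢
    have e1 : g * (v * x * v⁻¹) = v * ((v⁻¹ * g * v) * x) * v⁻¹ := by group
    rw [e1, h5]
    group
  · have hcls : cls N (v * x * v⁻¹) = cls N x :=
      cls_eq_of_mem (mem_cls.2 ⟨v, hv, rfl⟩)
    have hc : D.map (MulAut.conj v).toMonoidHom ≤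
        Subgroup.centralizer {v * x * v⁻¹} ⊓ N := by
      refine le_inf ?_ hle
      intro g hg
      rw [mem_map_conj] at hg
      have h5 := hx2 hg
      rw [Subgroup.mem_centralizer_singleton_iff] at h5 ⊢
      have e1 : g * (v * x * v⁻¹) = v * ((v⁻¹ * g * v) * x) * v⁻¹ := by group
      rw [e1, h5]
      group
    have e1 := card_mul_relIndex hc
    have e2 := card_mul_relIndex (le_inf hx2 h2)
    have e3 := card_mul_relIndex (P := Subgroup.centralizer {v * x * v⁻¹} ⊓ N) (X := N)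
      inf_le_right
    have e4 := card_mul_relIndex (P := Subgroup.centralizer {x} ⊓ N) (X := N) inf_le_right
    rw [← card_cls] at e3 e4
    rw [hcls] at e3
    have hpos : 0 < (cls N x).card := Finset.card_pos.2 ⟨x, self_mem_cls N x⟩
    have e5 : Nat.card (Subgroup.centralizer {v * x * v⁻¹} ⊓ N : Subgroup Γ) =
        Nat.card (Subgroup.centralizer {x} ⊓ N : Subgroup Γ) :=
      Nat.eq_of_mul_eq_mul_right hpos (e3.trans e4.symm)
    rw [card_conj, e5, ← e2] at e1
    have e6 : (D.map (MulAut.conj v).toMonoidHom).relIndex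
        (Subgroup.centralizer {v * x * v⁻¹} ⊓ N) =
        D.relIndex (Subgroup.centralizer {x} ⊓ N) :=
      Nat.eq_of_mul_eq_mul_left Nat.card_pos e1
    rwa [e6]
  · intro x' hx' hne
    obtain ⟨u, hu, hu'⟩ := h4 x' hx' hne
    refine ⟨u * v⁻¹, N.mul_mem hu (N.inv_mem hv), fun g hg => ?_⟩
    rw [mem_map_conj] at hg
    have h5 := hu' _ hg
    have e : u * v⁻¹ * g * (u * v⁻¹)⁻¹ = u * (v⁻¹ * g * v) * u⁻¹ := by group
    rwa [e]

theorem conjs_self_map {N P : Subgroup Γ} {u : Γ} (hu : u ∈ N) :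
    ∀ D ∈ conjs N P, D.map (MulAut.conj u).toMonoidHom ∈ conjs N P := by
  rintro _ ⟨v, hv, rfl⟩
  refine ⟨u * v, N.mul_mem hu hv, ?_⟩
  ext g
  rw [mem_map_conj, mem_map_conj, mem_map_conj]
  have : v⁻¹ * (u⁻¹ * g * u) * v = (u * v)⁻¹ * g * (u * v) := by group
  rw [this]

theorem CHom.map_cjA_ne {K : Subgroup Γ} (lamb : MonoidAlgebra F Γ → F) (hl : CHom K lamb)
    {H : Subgroup Γ} (hn : ∀ u ∈ H, ∀ g ∈ K, u * g * u⁻¹ ∈ K)
    (hne : ∀ h ∈ H, h ∉ K → ∃ b ∈ ZA F K K, lamb (cjA h b) ≠ lamb b) (S : Finset Γ)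
    (hS : ∀ h ∈ S, h ∈ H ∧ h ∉ K) :
    ∃ z ∈ ZA F K K, lamb z ≠ 0 ∧ ∀ h ∈ S, lamb (cjA h z) = 0 := by
  induction S using Finset.induction_on with
  | empty =>
    exact ⟨1, (ZA F K K).one_mem, by rw [hl.map_one]; exact one_ne_zero, fun h hh => by simp at hh⟩
  | insert a S ha ih =>
    obtain ⟨z, hz, hz1, hz2⟩ := ih fun h hh => hS h (Finset.mem_insert_of_mem hh)
    obtain ⟨haH, haK⟩ := hS a (Finset.mem_insert_self a S)
    obtain ⟨b, hb, hb1⟩ := hne a haH haK
    have hmem : ∀ h ∈ H, ∀ w ∈ ZA F K K, cjA h w ∈ ZA F K K := fun h hh w hw =>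
      cjA_mem (nor_iff hn hh) (hn h hh) hw
    have hb' : b - lamb (cjA a b) • 1 ∈ ZA F K K :=
      (ZA F K K).sub_mem hb ((ZA F K K).smul_mem (ZA F K K).one_mem _)
    refine ⟨z * (b - lamb (cjA a b) • 1), (ZA F K K).mul_mem hz hb', ?_, ?_⟩
    · rw [hl.map_mul _ hz _ hb', hl.map_sub hb ((ZA F K K).smul_mem (ZA F K K).one_mem _),
        hl.map_smul _ _ (ZA F K K).one_mem, hl.map_one, mul_one]
      exact mul_ne_zero hz1 (sub_ne_zero.2 (Ne.symm hb1))
    · intro h hh
      have hhH : h ∈ H := (hS h hh).1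
      rw [cjA_mul, hl.map_mul _ (hmem h hhH _ hz) _ (hmem h hhH _ hb')]
      rcases Finset.mem_insert.1 hh with rfl | hh'
      · have e : cjA h (b - lamb (cjA h b) • 1) = cjA h b - lamb (cjA h b) • 1 := by
          rw [sub_eq_add_neg, cjA_add, ← neg_smul, cjA_smul, cjA_one, neg_smul, ← sub_eq_add_neg]
        rw [e, hl.map_sub (hmem h hhH _ hb) ((ZA F K K).smul_mem (ZA F K K).one_mem _),
          hl.map_smul _ _ (ZA F K K).one_mem, hl.map_one, mul_one, sub_self, mul_zero]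
      · rw [hz2 h hh', zero_mul]

end

end H77

open H77 in
theorem F4 (hS1 : T_S1) (hE7 : T_E7) (hB1 : T_B1) (hB4 : T_B4) (hB5 : T_B5) (hB7 : T_B7)
    (hC1 : T_C1) (hC2 : T_C2) (hC3 : T_C3) : T_F4 := by
  intro F _ π hπ ℓ _ _ Γ _ _ K H P hKH hn hP hPK θ hθ hin y hy hyne hPy hPind hdeg χ hχ hover
  have hpr : ℓ.Prime := Fact.out
  have hE := hE7 Γ K H hKH hn χ hχ θ hθ hover (fun u hu huθ => hin u hu (fun z _ => by rw [huθ]))
  refine ⟨hE.1, hE.2.1, ?_⟩
  set lamb : MonoidAlgebra F Γ → F := lam π θ with hlamb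
  have hl : CHom K lamb := hB1 F π hπ Γ K θ hθ
  have hl' : CHom H (lam π χ) := hB1 F π hπ Γ H χ hχ
  have hmem : ∀ h ∈ H, ∀ w ∈ ZA F K K, cjA h w ∈ ZA F K K := fun h hh w hw =>
    cjA_mem (nor_iff hn hh) (hn h hh) hw
  have hne : ∀ h ∈ H, h ∉ K → ∃ b ∈ ZA F K K, lamb (cjA h b) ≠ lamb b := by
    intro h hh hhK
    by_contra hcon
    push Not at hcon
    apply hhK
    have h1 := hin h⁻¹ (H.inv_mem hh) (fun z hz => by
      rw [hB5 F π Γ θ h⁻¹ z, inv_inv]
      exact hcon z hz)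
    simpa using K.inv_mem h1
  obtain ⟨z1, hz1, hz1ne, hz1z⟩ := CHom.map_cjA_ne lamb hl hn hne
    (Finset.univ.filter fun h => h ∈ H ∧ h ∉ K) (fun h hh => (Finset.mem_filter.1 hh).2)
  set c := csum F (cls K y) with hc
  have hcm : c ∈ ZA F K K := csum_cls_mem_self hy
  have hySD : y ∈ SD ℓ K (conjs K P) := mem_SD_of_sylow hP hPK hy hPy hPind
  have hcSD : ∀ g, c.coeff g ≠ 0 → g ∈ SD ℓ K (conjs K P) := by
    intro g hg
    rw [hc, coeff_csum] at hg
    have hg' : g ∈ cls K y := by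
      by_contra hcon
      rw [if_neg hcon] at hg
      exact hg rfl
    obtain ⟨k, hk, rfl⟩ := mem_cls.1 hg'
    exact SD_conj (nor_iff (nor_self K) hk) (conjs_self_map hk) hySD
  set z2 := c * z1 with hz2
  have hz2m : z2 ∈ ZA F K K := (ZA F K K).mul_mem hcm hz1
  have hz2SD : ∀ g, z2.coeff g ≠ 0 → g ∈ SD ℓ K (conjs K P) :=
    hC2 F ℓ Γ K (conjs K P) c hcm z1 hz1 hcSD
  have hz2ne : lamb z2 ≠ 0 := by
    rw [hz2, hl.map_mul _ hcm _ hz1]
    exact mul_ne_zero hyne hz1ne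
  have hz2z : ∀ h ∈ H, h ∉ K → lamb (cjA h z2) = 0 := by
    intro h hh hhK
    rw [hz2, cjA_mul, hl.map_mul _ (hmem h hh _ hcm) _ (hmem h hh _ hz1),
      hz1z h (Finset.mem_filter.2 ⟨Finset.mem_univ _, hh, hhK⟩), mul_zero]
  -- the quotient
  set K' : Subgroup H := K.subgroupOf H with hK'
  have hnorm : K'.Normal := ⟨fun k hk h => by
    rw [hK', Subgroup.mem_subgroupOf] at hk ⊢
    exact hn h h.2 k hk⟩
  have hfin : Fintype (H ⧸ K') := Fintype.ofFinite _
  have hout : ∀ h : H, cjA (((QuotientGroup.mk h : H ⧸ K').out : H) : Γ) z2 = cjA (h : Γ) z2 := by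
    intro h
    have h1 : (QuotientGroup.mk ((QuotientGroup.mk h : H ⧸ K').out) : H ⧸ K') =
        QuotientGroup.mk h := QuotientGroup.out_eq' _
    rw [QuotientGroup.eq, hK', Subgroup.mem_subgroupOf] at h1
    set o := (QuotientGroup.mk h : H ⧸ K').out with ho
    have h2 : ((o⁻¹ * h : H) : Γ) = (o : Γ)⁻¹ * h := by push_cast; rfl
    rw [h2] at h1
    have h3 : (o : Γ) * ((o : Γ)⁻¹ * h) * (o : Γ)⁻¹ ∈ K := hn o o.2 _ h1
    have h4 : (h : Γ) = ((o : Γ) * ((o : Γ)⁻¹ * h) * (o : Γ)⁻¹) * o := by group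
    rw [h4, ← cjA_cjA, cjA_of_mem hz2m h3]
  set f : H ⧸ K' → MonoidAlgebra F Γ := fun q => cjA ((q.out : H) : Γ) z2 with hf
  have hfmk : ∀ h : H, f (QuotientGroup.mk h) = cjA (h : Γ) z2 := hout
  have hfmem : ∀ q, f q ∈ ZA F K K := fun q => hmem _ (q.out).2 _ hz2m
  set w := ∑ q, f q with hw
  have hwcoeff : ∀ g, w.coeff g = ∑ q, (f q).coeff g := by
    intro g
    rw [hw, MonoidAlgebra.coeff_sum, Finsupp.finsetSum_apply]
  have hwm : w ∈ ZA F K H := by
    refine ⟨fun g hg => ?_, fun u hu g => ?_⟩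
    · rw [hwcoeff]
      exact Finset.sum_eq_zero fun q _ => (hfmem q).1 g hg
    · rw [hwcoeff, hwcoeff]
      refine Fintype.sum_equiv (Equiv.mulRight (QuotientGroup.mk ⟨u, hu⟩ : H ⧸ K')) _ _
        fun q => ?_
      rw [Equiv.coe_mulRight]
      induction q using QuotientGroup.induction_on with
      | H h =>
        have e1 : (fun x => x * (QuotientGroup.mk ⟨u, hu⟩ : H ⧸ K')) (QuotientGroup.mk h) =
            QuotientGroup.mk (h * ⟨u, hu⟩) := rfl
        rw [e1, hfmk, hfmk, coeff_cjA, coeff_cjA]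
        congr 1
        push_cast
        group
  have hlw : lamb w = lamb z2 := by
    rw [hw, hl.map_sum _ _ (fun q _ => hfmem q), Finset.sum_eq_single (1 : H ⧸ K')]
    · have : (1 : H ⧸ K') = QuotientGroup.mk (1 : H) := rfl
      rw [this, hfmk, Subgroup.coe_one, cjA_one_left]
    · intro q _ hq
      induction q using QuotientGroup.induction_on with
      | H h =>
        rw [hfmk]
        refine hz2z h h.2 fun hhK => hq ?_
        rw [QuotientGroup.eq_one_iff, hK', Subgroup.mem_subgroupOf]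
        exact hhK
    · intro h
      exact absurd (Finset.mem_univ _) h
  have hlχw : lam π χ w ≠ 0 := by
    rw [hB4 F π hπ Γ K H hKH hn χ hχ θ hθ hover w hwm]
    show lamb w ≠ 0
    rw [hlw]
    exact hz2ne
  obtain ⟨x, hxK, hwx, hχx⟩ := hl'.exists_cls hKH le_rfl hn hwm hlχw
  -- every `ℓ`-subgroup of the centraliser of `x` is in `K`
  have hA : ∀ R : Subgroup Γ, IsPGroup ℓ R → R ≤ H → R ≤ Subgroup.centralizer {x} → R ≤ K := by
    intro R hR hRH hRx
    by_contra hcon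
    apply hwx
    rw [hwcoeff]
    let φ : R → H ⧸ K' := fun r => QuotientGroup.mk ⟨r, hRH r.2⟩
    have hφ1 : φ 1 = 1 := rfl
    have hφmul : ∀ r r', φ (r * r') = φ r * φ r' := fun r r' => rfl
    let act : MulAction R (H ⧸ K') :=
      { smul := fun r q => q * (φ r)⁻¹
        one_smul := fun q => by
          show q * (φ 1)⁻¹ = q
          rw [hφ1, inv_one, mul_one]
        mul_smul := fun r r' q => by
          show q * (φ (r * r'))⁻¹ = q * (φ r')⁻¹ * (φ r)⁻¹
          rw [hφmul, mul_inv_rev, mul_assoc] }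
    have hsmul : ∀ (r : R) (q : H ⧸ K'), r • q = q * (φ r)⁻¹ := fun _ _ => rfl
    have h1 := hC1 F ℓ R (H ⧸ K') hR (fun q => (f q).coeff x) (fun r q => by
      induction q using QuotientGroup.induction_on with
      | H h =>
        rw [hsmul]
        have e1 : (QuotientGroup.mk h : H ⧸ K') * (φ r)⁻¹ =
            QuotientGroup.mk (h * (⟨r, hRH r.2⟩ : H)⁻¹) := rfl
        rw [e1, hfmk, hfmk, coeff_cjA, coeff_cjA]
        congr 1
        have hrx := hRx r.2
        rw [Subgroup.mem_centralizer_singleton_iff] at hrx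
        have hrx' : (r : Γ)⁻¹ * x * r = x := by
          rw [mul_assoc, ← hrx]
          group
        push_cast
        calc (h : Γ) * (r : Γ)⁻¹ * x * ((h : Γ) * (r : Γ)⁻¹)⁻¹ =
            h * ((r : Γ)⁻¹ * x * r) * (h : Γ)⁻¹ := by group
          _ = h * x * (h : Γ)⁻¹ := by rw [hrx'])
    rw [h1]
    refine Finset.sum_eq_zero fun q _ => if_neg fun hq => hcon fun r hr => ?_
    have h2 := hq ⟨r, hr⟩
    rw [hsmul, mul_eq_left, inv_eq_one] at h2
    have h3 : (QuotientGroup.mk (⟨r, hRH hr⟩ : H) : H ⧸ K') = 1 := h2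
    rw [QuotientGroup.eq_one_iff, hK', Subgroup.mem_subgroupOf] at h3
    exact h3
  -- such a subgroup is contained in an `H`-conjugate of `P`
  have hBc : ∀ R : Subgroup Γ, IsPGroup ℓ R → R ≤ H → R ≤ Subgroup.centralizer {x} →
      ∃ u ∈ H, R ≤ P.map (MulAut.conj u).toMonoidHom := by
    intro R hR hRH hRx
    have hRK := hA R hR hRH hRx
    have hex : ∃ q, (f q).coeff x ≠ 0 := by
      by_contra hcon
      push Not at hcon
      apply hwx
      rw [hwcoeff]
      exact Finset.sum_eq_zero fun q _ => hcon q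
    obtain ⟨q, hq⟩ := hex
    set h : Γ := ((q.out : H) : Γ) with hh
    have hhH : h ∈ H := (q.out).2
    have hq' : z2.coeff (h * x * h⁻¹) ≠ 0 := hq
    have hSD := hz2SD _ hq'
    obtain ⟨D, ⟨k, hk, rfl⟩, hD⟩ := hSD.2 (R.map (MulAut.conj h).toMonoidHom) (hR.map _)
      (fun g hg => by
        rw [mem_map_conj] at hg
        have := hn h hhH _ (hRK hg)
        have e : h * (h⁻¹ * g * h) * h⁻¹ = g := by group
        rwa [e] at this)
      (fun g hg => by
        rw [mem_map_conj] at hg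
        have h5 := hRx hg
        rw [Subgroup.mem_centralizer_singleton_iff] at h5 ⊢
        have e1 : g * (h * x * h⁻¹) = h * ((h⁻¹ * g * h) * x) * h⁻¹ := by group
        rw [e1, h5]
        group)
    refine ⟨h⁻¹ * k, H.mul_mem (H.inv_mem hhH) (hKH hk), fun r hr => ?_⟩
    have h6 : h * r * h⁻¹ ∈ R.map (MulAut.conj h).toMonoidHom := by
      rw [mem_map_conj]
      have e : h⁻¹ * (h * r * h⁻¹) * h = r := by group
      rwa [e]
    have h7 := hD h6
    rw [mem_map_conj] at h7 ⊢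
    have e : (h⁻¹ * k)⁻¹ * r * (h⁻¹ * k) = k⁻¹ * (h * r * h⁻¹) * k := by group
    rwa [e]
  -- a defect group
  obtain ⟨D, hD⟩ := hC3 F ℓ Γ H (lam π χ) hl'
  obtain ⟨u, hu, huD⟩ := hD.2.2.2 x (hKH hxK) hχx
  have hDu : IsPGroup ℓ (D.map (MulAut.conj u).toMonoidHom) := hD.1.map _
  obtain ⟨v, hv, hDv⟩ := hBc (D.map (MulAut.conj u).toMonoidHom) hDu
    (fun g hg => by
      rw [mem_map_conj] at hg
      have := H.mul_mem (H.mul_mem hu (hD.2.1 hg)) (H.inv_mem hu)
      have e : u * (u⁻¹ * g * u) * u⁻¹ = g := by group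
      rwa [e] at this)
    (fun g hg => by
      rw [mem_map_conj] at hg
      have := huD _ hg
      have e : u * (u⁻¹ * g * u) * u⁻¹ = g := by group
      rwa [e] at this)
  -- heights
  have hDcard : Nat.card P ≤ Nat.card D := by
    obtain ⟨x', hx', hx'1, hx'2, hx'3⟩ := hD.2.2.1
    obtain ⟨d', hd'0, hd'⟩ := (hS1 Γ K θ hθ).2.2.1
    have hχ1 : χ 1 = ((K.relIndex H * d' : ℕ) : ℂ) := by
      rw [hE.2.1, hd']
      push_cast
      rfl
    have h1 := hB7 F π hπ ℓ Γ H χ hχ x' hx' hx'1 _ hχ1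
    have hPH : P ≤ H := hPK.trans hKH
    have hKHpos : K.relIndex H ≠ 0 := relIndex_ne_zero' hKH
    have h2 : padicValNat ℓ (K.relIndex H * d') = padicValNat ℓ (P.relIndex H) := by
      rw [padicValNat.mul hKHpos hd'0.ne', hdeg d' hd',
        ← padicValNat.mul hKHpos (relIndex_ne_zero' hPK), mul_comm,
        Subgroup.relIndex_mul_relIndex P K H hPK hKH]
    rw [h2] at h1
    -- `D` is Sylow in the centraliser
    have h3 := card_mul_relIndex (P := Subgroup.centralizer {x'} ⊓ H) (X := H) inf_le_right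
    have h4 := card_mul_relIndex (P := P) (X := H) hPH
    have h5 := card_mul_relIndex (P := D) (X := Subgroup.centralizer {x'} ⊓ H)
      (le_inf hx'2 hD.2.1)
    have hc0 : Nat.card (Subgroup.centralizer {x'} ⊓ H : Subgroup Γ) ≠ 0 := Nat.card_pos.ne'
    have v3 := congrArg (padicValNat ℓ) h3
    have v4 := congrArg (padicValNat ℓ) h4
    have v5 := congrArg (padicValNat ℓ) h5
    rw [padicValNat.mul hc0 (relIndex_ne_zero' inf_le_right)] at v3
    rw [padicValNat.mul Nat.card_pos.ne' (relIndex_ne_zero' hPH)] at v4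
    rw [padicValNat.mul Nat.card_pos.ne' (relIndex_ne_zero' (le_inf hx'2 hD.2.1)),
      padicValNat.eq_zero_of_not_dvd hx'3] at v5
    have hv : padicValNat ℓ (Nat.card P) ≤ padicValNat ℓ (Nat.card D) := by omega
    obtain ⟨a, ha⟩ := IsPGroup.iff_card.1 hP
    obtain ⟨b, hb⟩ := IsPGroup.iff_card.1 hD.1
    rw [ha, hb, padicValNat.prime_pow, padicValNat.prime_pow] at hv
    rw [ha, hb]
    exact Nat.pow_le_pow_right hpr.pos hv
  have hDP : D.map (MulAut.conj u).toMonoidHom = P.map (MulAut.conj v).toMonoidHom := by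
    refine Subgroup.eq_of_le_of_card_ge hDv ?_
    rw [card_conj, card_conj]
    exact hDcard
  have h1 : DefH ℓ H (lam π χ) (D.map (MulAut.conj u).toMonoidHom) := DefH_conj hD hu
  rw [hDP] at h1
  have h2 := DefH_conj h1 (H.inv_mem hv)
  have h3 : (P.map (MulAut.conj v).toMonoidHom).map (MulAut.conj v⁻¹).toMonoidHom = P := by
    ext g
    rw [mem_map_conj, mem_map_conj]
    have : v⁻¹ * (v⁻¹⁻¹ * g * v⁻¹) * v = g := by group
    rw [this]
  rwa [h3] at h2

end AMc
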