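import Pool.Agent.H98.AM.Targets

/-!
# Critical almost Mathieu operator (MP_29bb0a_mp): module G1, basic properties of `pj`
helper77
-/

open Polynomial
open scoped ComplexConjugate

noncomputable section

namespace Pool.Agent.H77.AM

open Pool.Agent.H98.AM

section
variable {𝓗 : Type} [NormedAddCommGroup 𝓗] [InnerProductSpace ℂ 𝓗] {ι : Type} [Fintype ι]

theorem eb_ext (u : OrthonormalBasis ι ℂ 𝓗) {f g : 𝓗}
    (h : ∀ i, inner ℂ (u i) f = inner ℂ (u i) g) : f = g := by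
  rw [← u.sum_repr' f, ← u.sum_repr' g]
  exact Finset.sum_congr rfl fun i _ => by rw [h i]

theorem eb_inner_sum [DecidableEq ι] (u : OrthonormalBasis ι ℂ 𝓗) (c : ι → ℂ) (j : ι) :
    inner ℂ (u j) (∑ i, c i • u i) = c j := by
  rw [inner_sum]
  simp_rw [inner_smul_right, orthonormal_iff_ite.mp u.orthonormal]
  simp

theorem eb_inner_pj (u : OrthonormalBasis ι ℂ 𝓗) (ev : ι → ℝ) (S : Set ℝ) [DecidablePred (· ∈ S)]
    (f : 𝓗) (j : ι) :
    inner ℂ (u j) (pj u ev S f) = if ev j ∈ S then inner ℂ (u j) f else 0 := by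
  classical
  have h : pj u ev S f = ∑ i, (if ev i ∈ S then inner ℂ (u i) f else 0 : ℂ) • u i := by
    unfold pj
    refine Finset.sum_congr rfl fun i _ => ?_
    split_ifs <;> simp
  rw [h, eb_inner_sum]

theorem eb_inner_T {T : 𝓗 →ₗ[ℂ] 𝓗} {u : OrthonormalBasis ι ℂ 𝓗} {ev : ι → ℝ} (h : IsEB T u ev)
    (f : 𝓗) (j : ι) : inner ℂ (u j) (T f) = (ev j : ℂ) * inner ℂ (u j) f := by
  classical
  conv_lhs => rw [← u.sum_repr' f]
  rw [map_sum]
  have : ∀ i, T (inner ℂ (u i) f • u i) = ((ev i : ℂ) * inner ℂ (u i) f) • u i := by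
    intro i
    rw [map_smul, h i, smul_smul, mul_comm]
  simp_rw [this]
  rw [eb_inner_sum]

theorem eb_norm (u : OrthonormalBasis ι ℂ 𝓗) (f : 𝓗) :
    ‖f‖ ^ 2 = ∑ i, ‖inner ℂ (u i) f‖ ^ 2 := by
  rw [u.sum_sq_norm_inner_right]

theorem eb_inner (u : OrthonormalBasis ι ℂ 𝓗) (f g : 𝓗) :
    inner ℂ f g = ∑ i, conj (inner ℂ (u i) f) * inner ℂ (u i) g := by
  rw [← u.sum_inner_mul_inner f g]
  refine Finset.sum_congr rfl fun i _ => ?_
  rw [inner_conj_symm]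

theorem pj_add (u : OrthonormalBasis ι ℂ 𝓗) (ev : ι → ℝ) (S : Set ℝ) (f g : 𝓗) :
    pj u ev S (f + g) = pj u ev S f + pj u ev S g := by
  classical
  apply eb_ext u
  intro i
  rw [inner_add_right, eb_inner_pj, eb_inner_pj, eb_inner_pj, inner_add_right]
  split_ifs <;> simp

theorem pj_smul (u : OrthonormalBasis ι ℂ 𝓗) (ev : ι → ℝ) (S : Set ℝ) (c : ℂ) (f : 𝓗) :
    pj u ev S (c • f) = c • pj u ev S f := by
  classical
  apply eb_ext u
  intro i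
  rw [inner_smul_right, eb_inner_pj, eb_inner_pj, inner_smul_right]
  split_ifs <;> simp

/-- `pj` as a linear map -/
def pjl (u : OrthonormalBasis ι ℂ 𝓗) (ev : ι → ℝ) (S : Set ℝ) : 𝓗 →ₗ[ℂ] 𝓗 where
  toFun := pj u ev S
  map_add' := pj_add u ev S
  map_smul' := pj_smul u ev S

@[simp] theorem pjl_apply (u : OrthonormalBasis ι ℂ 𝓗) (ev : ι → ℝ) (S : Set ℝ) (f : 𝓗) :
    pjl u ev S f = pj u ev S f := rfl

theorem pj_sub (u : OrthonormalBasis ι ℂ 𝓗) (ev : ι → ℝ) (S : Set ℝ) (f g : 𝓗) :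
    pj u ev S (f - g) = pj u ev S f - pj u ev S g := map_sub (pjl u ev S) f g

theorem pj_zero (u : OrthonormalBasis ι ℂ 𝓗) (ev : ι → ℝ) (S : Set ℝ) :
    pj u ev S 0 = 0 := map_zero (pjl u ev S)

theorem pj_neg (u : OrthonormalBasis ι ℂ 𝓗) (ev : ι → ℝ) (S : Set ℝ) (f : 𝓗) :
    pj u ev S (-f) = -pj u ev S f := map_neg (pjl u ev S) f

theorem pj_pj (u : OrthonormalBasis ι ℂ 𝓗) (ev : ι → ℝ) (S S' : Set ℝ) (f : 𝓗) :
    pj u ev S (pj u ev S' f) = pj u ev (S ∩ S') f := by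
  classical
  apply eb_ext u
  intro i
  rw [eb_inner_pj, eb_inner_pj, eb_inner_pj]
  by_cases h1 : ev i ∈ S <;> by_cases h2 : ev i ∈ S' <;> simp [h1, h2]

theorem pj_inner (u : OrthonormalBasis ι ℂ 𝓗) (ev : ι → ℝ) (S : Set ℝ) (f g : 𝓗) :
    inner ℂ (pj u ev S f) g = inner ℂ f (pj u ev S g) := by
  classical
  rw [eb_inner u, eb_inner u f]
  refine Finset.sum_congr rfl fun i _ => ?_
  rw [eb_inner_pj, eb_inner_pj]
  split_ifs <;> simp

theorem pj_norm_sq (u : OrthonormalBasis ι ℂ 𝓗) (ev : ι → ℝ) (S : Set ℝ)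
    [DecidablePred (· ∈ S)] (f : 𝓗) :
    ‖pj u ev S f‖ ^ 2 = ∑ i, if ev i ∈ S then ‖inner ℂ (u i) f‖ ^ 2 else 0 := by
  rw [eb_norm u]
  refine Finset.sum_congr rfl fun i _ => ?_
  rw [eb_inner_pj]
  split_ifs <;> simp

theorem pj_pyth (u : OrthonormalBasis ι ℂ 𝓗) (ev : ι → ℝ) (S : Set ℝ) (f : 𝓗) :
    ‖pj u ev S f‖ ^ 2 + ‖pj u ev Sᶜ f‖ ^ 2 = ‖f‖ ^ 2 := by
  classical
  rw [pj_norm_sq, pj_norm_sq, eb_norm u, ← Finset.sum_add_distrib]
  refine Finset.sum_congr rfl fun i _ => ?_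
  by_cases h : ev i ∈ S <;> simp [h]

theorem pj_compl (u : OrthonormalBasis ι ℂ 𝓗) (ev : ι → ℝ) (S : Set ℝ) (f : 𝓗) :
    pj u ev S f + pj u ev Sᶜ f = f := by
  classical
  apply eb_ext u
  intro i
  rw [inner_add_right, eb_inner_pj, eb_inner_pj]
  by_cases h : ev i ∈ S <;> simp [h]

theorem pj_T {T : 𝓗 →ₗ[ℂ] 𝓗} {u : OrthonormalBasis ι ℂ 𝓗} {ev : ι → ℝ} (h : IsEB T u ev)
    (S : Set ℝ) (f : 𝓗) : T (pj u ev S f) = pj u ev S (T f) := by
  classical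
  apply eb_ext u
  intro i
  rw [eb_inner_T h, eb_inner_pj, eb_inner_pj, eb_inner_T h]
  split_ifs <;> simp

theorem pj_win {T : 𝓗 →ₗ[ℂ] 𝓗} {u : OrthonormalBasis ι ℂ 𝓗} {ev : ι → ℝ} (h : IsEB T u ev)
    (E d : ℝ) (f : 𝓗) (hd : 0 ≤ d) : ‖T (pj u ev (win E d) f) - (E : ℂ) • pj u ev (win E d) f‖
      ≤ d * ‖pj u ev (win E d) f‖ := by
  classical
  rw [← abs_of_nonneg (norm_nonneg (T _ - _)), ← abs_of_nonneg (mul_nonneg hd (norm_nonneg _)),
    ← sq_le_sq, mul_pow, eb_norm u, eb_norm u (pj u ev (win E d) f), Finset.mul_sum]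
  refine Finset.sum_le_sum fun i _ => ?_
  rw [inner_sub_right, inner_smul_right, eb_inner_T h, ← sub_mul, norm_mul, mul_pow, eb_inner_pj]
  by_cases hi : ev i ∈ win E d
  · apply mul_le_mul_of_nonneg_right _ (by positivity)
    have hi' : |ev i - E| ≤ d := hi
    rw [← Complex.ofReal_sub, Complex.norm_real, Real.norm_eq_abs]
    exact pow_le_pow_left₀ (abs_nonneg _) hi' 2
  · simp [hi]

theorem pj_wout {T : 𝓗 →ₗ[ℂ] 𝓗} {u : OrthonormalBasis ι ℂ 𝓗} {ev : ι → ℝ} (h : IsEB T u ev)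
    (E d : ℝ) (f : 𝓗) (hd : 0 ≤ d) : d * ‖pj u ev (wout E d) f‖ ≤ ‖T f - (E : ℂ) • f‖ := by
  classical
  rw [← abs_of_nonneg (norm_nonneg (T _ - _)), ← abs_of_nonneg (mul_nonneg hd (norm_nonneg _)),
    ← sq_le_sq, mul_pow, eb_norm u, eb_norm u (T f - _), Finset.mul_sum]
  refine Finset.sum_le_sum fun i _ => ?_
  rw [inner_sub_right, inner_smul_right, eb_inner_T h, ← sub_mul, norm_mul, mul_pow, eb_inner_pj]
  by_cases hi : ev i ∈ wout E d
  · rw [if_pos hi]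
    apply mul_le_mul_of_nonneg_right _ (by positivity)
    have hi' : d < |ev i - E| := hi
    rw [← Complex.ofReal_sub, Complex.norm_real, Real.norm_eq_abs]
    exact pow_le_pow_left₀ hd hi'.le 2
  · rw [if_neg hi]
    simp
    positivity

theorem win_compl (E d : ℝ) : (win E d)ᶜ = wout E d := by
  ext x
  simp [win, wout]

theorem pj_norm_le (u : OrthonormalBasis ι ℂ 𝓗) (ev : ι → ℝ) (S : Set ℝ) (f : 𝓗) :
    ‖pj u ev S f‖ ≤ ‖f‖ := by
  have := pj_pyth u ev S f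
  nlinarith [norm_nonneg (pj u ev S f), norm_nonneg f, sq_nonneg ‖pj u ev Sᶜ f‖]

end

theorem g1 : T_G1 := by
  intro 𝓗 _ _ ι _ T u ev h
  exact ⟨pj_add u ev, pj_smul u ev, pj_pj u ev, pj_inner u ev, pj_pyth u ev, pj_compl u ev,
    fun S f => pj_T h S f, fun E d f hd => pj_win h E d f hd, fun E d f hd => pj_wout h E d f hd,
    win_compl⟩

end Pool.Agent.H77.AM
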