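import Pool.Agent.H77.AM.G1

/-!
# Critical almost Mathieu operator (MP_29bb0a_mp): module G2, separated windows
helper77
-/

open Polynomial
open scoped ComplexConjugate

noncomputable section

namespace Pool.Agent.H77.AM

open Pool.Agent.H98.AM

section
variable {𝓗 : Type} [NormedAddCommGroup 𝓗] [InnerProductSpace ℂ 𝓗] {ι : Type} [Fintype ι]

/-- functional calculus -/
def fc (u : OrthonormalBasis ι ℂ 𝓗) (φ : ι → ℂ) : 𝓗 →ₗ[ℂ] 𝓗 where
  toFun f := ∑ i, (φ i * inner ℂ (u i) f) • u i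
  map_add' f g := by
    rw [← Finset.sum_add_distrib]
    refine Finset.sum_congr rfl fun i _ => ?_
    rw [inner_add_right, mul_add, add_smul]
  map_smul' c f := by
    rw [Finset.smul_sum]
    refine Finset.sum_congr rfl fun i _ => ?_
    rw [inner_smul_right, RingHom.id_apply, smul_smul]
    congr 1
    ring

theorem fc_apply (u : OrthonormalBasis ι ℂ 𝓗) (φ : ι → ℂ) (f : 𝓗) :
    fc u φ f = ∑ i, (φ i * inner ℂ (u i) f) • u i := rfl

theorem eb_inner_fc (u : OrthonormalBasis ι ℂ 𝓗) (φ : ι → ℂ) (f : 𝓗) (j : ι) :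
    inner ℂ (u j) (fc u φ f) = φ j * inner ℂ (u j) f := by
  classical
  rw [fc_apply, eb_inner_sum]

theorem fc_norm_le (u : OrthonormalBasis ι ℂ 𝓗) (φ : ι → ℂ) (c : ℝ) (hc : 0 ≤ c)
    (h : ∀ i, ‖φ i‖ ≤ c) (f : 𝓗) : ‖fc u φ f‖ ≤ c * ‖f‖ := by
  rw [← abs_of_nonneg (norm_nonneg (fc u φ f)), ← abs_of_nonneg (mul_nonneg hc (norm_nonneg f)),
    ← sq_le_sq, mul_pow, eb_norm u, eb_norm u f, Finset.mul_sum]
  refine Finset.sum_le_sum fun i _ => ?_
  rw [eb_inner_fc, norm_mul, mul_pow]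
  exact mul_le_mul_of_nonneg_right (pow_le_pow_left₀ (norm_nonneg _) (h i) 2) (by positivity)

open Classical in
theorem pj_eq_fc (u : OrthonormalBasis ι ℂ 𝓗) (ev : ι → ℝ) (S : Set ℝ) (f : 𝓗) :
    pj u ev S f = fc u (fun i => if ev i ∈ S then 1 else 0) f := by
  apply eb_ext u
  intro i
  rw [eb_inner_pj, eb_inner_fc]
  split_ifs <;> simp

open Classical in
/-- the resolvent `(T - E)⁻¹` on the window complement -/
def rv (u : OrthonormalBasis ι ℂ 𝓗) (ev : ι → ℝ) (E d : ℝ) : 𝓗 →ₗ[ℂ] 𝓗 :=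
  fc u (fun i => if ev i ∈ wout E d then ((ev i - E : ℝ) : ℂ)⁻¹ else 0)

theorem rv_norm_le (u : OrthonormalBasis ι ℂ 𝓗) (ev : ι → ℝ) (E d : ℝ) (hd : 0 < d) (f : 𝓗) :
    d * ‖rv u ev E d f‖ ≤ ‖f‖ := by
  classical
  have := fc_norm_le u (fun i => if ev i ∈ wout E d then ((ev i - E : ℝ) : ℂ)⁻¹ else 0) d⁻¹
    (by positivity) (fun i => by
      split_ifs with h
      · rw [norm_inv, Complex.norm_real, Real.norm_eq_abs]
        have h' : d < |ev i - E| := h
        exact inv_anti₀ hd h'.le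
      · simp only [norm_zero]; positivity) f
  have h2 : ‖rv u ev E d f‖ ≤ d⁻¹ * ‖f‖ := by
    unfold rv
    convert this
  calc d * _ ≤ d * (d⁻¹ * ‖f‖) := mul_le_mul_of_nonneg_left h2 hd.le
    _ = ‖f‖ := by field_simp

theorem rv_spec {T : 𝓗 →ₗ[ℂ] 𝓗} {u : OrthonormalBasis ι ℂ 𝓗} {ev : ι → ℝ} (h : IsEB T u ev)
    (E d : ℝ) (hd : 0 ≤ d) (f : 𝓗) :
    T (rv u ev E d f) - (E : ℂ) • rv u ev E d f = pj u ev (wout E d) f := by
  classical
  apply eb_ext u
  intro i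
  rw [inner_sub_right, inner_smul_right, eb_inner_T h, eb_inner_pj]
  unfold rv
  rw [eb_inner_fc]
  split_ifs with hi
  · have h' : d < |ev i - E| := hi
    have h2 : ((ev i - E : ℝ) : ℂ) ≠ 0 := by
      rw [Complex.ofReal_ne_zero]
      intro h3
      rw [h3, abs_zero] at h'
      linarith
    have h3 : ((ev i : ℂ) - E) = ((ev i - E : ℝ) : ℂ) := by push_cast; ring
    rw [← sub_mul, h3]
    field_simp
  · simp

theorem rv_spec' {T : 𝓗 →ₗ[ℂ] 𝓗} {u : OrthonormalBasis ι ℂ 𝓗} {ev : ι → ℝ} (h : IsEB T u ev)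
    (E d : ℝ) (hd : 0 ≤ d) (f : 𝓗) :
    rv u ev E d (T f - (E : ℂ) • f) = pj u ev (wout E d) f := by
  classical
  apply eb_ext u
  intro i
  unfold rv
  rw [eb_inner_fc, inner_sub_right, inner_smul_right, eb_inner_T h, eb_inner_pj]
  split_ifs with hi
  · have h' : d < |ev i - E| := hi
    have h2 : ((ev i - E : ℝ) : ℂ) ≠ 0 := by
      rw [Complex.ofReal_ne_zero]
      intro h3
      rw [h3, abs_zero] at h'
      linarith
    have h3 : ((ev i : ℂ) - E) = ((ev i - E : ℝ) : ℂ) := by push_cast; ring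
    rw [← sub_mul, h3]
    field_simp
  · simp

theorem pj_rv (u : OrthonormalBasis ι ℂ 𝓗) (ev : ι → ℝ) (E d : ℝ) (f : 𝓗) :
    pj u ev (wout E d) (rv u ev E d f) = rv u ev E d f := by
  classical
  apply eb_ext u
  intro i
  unfold rv
  rw [eb_inner_pj, eb_inner_fc]
  split_ifs <;> simp

/-- a norm bound that improves itself -/
theorem self_improve (u : OrthonormalBasis ι ℂ 𝓗) (B : 𝓗 →ₗ[ℂ] 𝓗) (d d' c : ℝ) (hd : 0 ≤ d)
    (hdd : d < d') (hc : 0 ≤ c)
    (h : ∀ a, 0 ≤ a → (∀ f, ‖B f‖ ≤ a * ‖f‖) → ∀ f, d' * ‖B f‖ ≤ (d * a + c) * ‖f‖) (f : 𝓗) :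
    ‖B f‖ ≤ c / (d' - d) * ‖f‖ := by
  have : FiniteDimensional ℂ 𝓗 := Module.Finite.of_basis u.toBasis
  set B' : 𝓗 →L[ℂ] 𝓗 := LinearMap.toContinuousLinearMap B with hB'
  have hBB : ∀ f, B' f = B f := fun f => rfl
  have hd' : 0 < d' := lt_of_le_of_lt hd hdd
  have h1 : ∀ f, ‖B f‖ ≤ ‖B'‖ * ‖f‖ := fun f => by rw [← hBB]; exact B'.le_opNorm f
  have h2 := h ‖B'‖ (norm_nonneg _) h1
  have h3 : ‖B'‖ ≤ (d * ‖B'‖ + c) / d' := by
    apply ContinuousLinearMap.opNorm_le_bound _ (by positivity)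
    intro f
    rw [hBB, div_mul_eq_mul_div, le_div_iff₀ hd', mul_comm]
    exact h2 f
  have h4 : ‖B'‖ ≤ c / (d' - d) := by
    rw [le_div_iff₀ hd'] at h3
    rw [le_div_iff₀ (by linarith)]
    nlinarith
  exact (h1 f).trans (mul_le_mul_of_nonneg_right h4 (norm_nonneg _))

end

theorem g2 : T_G2 := by
  intro 𝓗 _ _ ι _ T u ev h A E d d' c hd hdd hc hA
  have hd' : 0 < d' := lt_of_le_of_lt hd hdd
  -- shifted commutator
  have key : ∀ f, T (A f) - (E : ℂ) • A f = A (T f - (E : ℂ) • f) + (T (A f) - A (T f)) := by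
    intro f
    rw [map_sub, map_smul]
    abel
  constructor
  · intro f
    have := self_improve u (pjl u ev (win E d) ∘ₗ A ∘ₗ pjl u ev (wout E d')) d d' c hd hdd hc ?_ f
    · simpa using this
    intro a ha hB f
    set g := pj u ev (wout E d') f with hg
    set w := rv u ev E d' f with hw
    have h1 : T w - (E : ℂ) • w = g := rv_spec h E d' hd'.le f
    have h2 : d' * ‖w‖ ≤ ‖f‖ := rv_norm_le u ev E d' hd' f
    have h3 : pj u ev (wout E d') w = w := pj_rv u ev E d' f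
    have h4 : (pjl u ev (win E d) ∘ₗ A ∘ₗ pjl u ev (wout E d')) f
        = (T (pj u ev (win E d) (A w)) - (E : ℂ) • pj u ev (win E d) (A w))
          - pj u ev (win E d) (T (A w) - A (T w)) := by
      simp only [LinearMap.comp_apply, pjl_apply]
      rw [← hg, ← h1, pj_T h, ← pj_smul, ← pj_sub, ← pj_sub, key w]
      congr 1
      abel
    have h5 : ‖pj u ev (win E d) (A w)‖ ≤ a * ‖w‖ := by
      have := hB w
      simp only [LinearMap.comp_apply, pjl_apply] at this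
      rwa [h3] at this
    rw [h4]
    have h6 : ‖(T (pj u ev (win E d) (A w)) - (E : ℂ) • pj u ev (win E d) (A w))
          - pj u ev (win E d) (T (A w) - A (T w))‖ ≤ (d * a + c) * ‖w‖ := by
      calc _ ≤ _ + _ := norm_sub_le _ _
        _ ≤ d * ‖pj u ev (win E d) (A w)‖ + ‖T (A w) - A (T w)‖ :=
            add_le_add (pj_win h E d _ hd) (pj_norm_le _ _ _ _)
        _ ≤ d * (a * ‖w‖) + c * ‖w‖ := add_le_add (mul_le_mul_of_nonneg_left h5 hd) (hA w)
        _ = _ := by ring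
    calc d' * _ ≤ d' * ((d * a + c) * ‖w‖) := mul_le_mul_of_nonneg_left h6 hd'.le
      _ = (d * a + c) * (d' * ‖w‖) := by ring
      _ ≤ (d * a + c) * ‖f‖ := mul_le_mul_of_nonneg_left h2 (by positivity)
  · intro f
    have := self_improve u (pjl u ev (wout E d') ∘ₗ A ∘ₗ pjl u ev (win E d)) d d' c hd hdd hc ?_ f
    · simpa using this
    intro a ha hB f
    set g := pj u ev (win E d) f with hg
    simp only [LinearMap.comp_apply, pjl_apply] at hB ⊢
    rw [← hg]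
    have h0 : ‖g‖ ≤ ‖f‖ := pj_norm_le _ _ _ _
    have h1 : pj u ev (wout E d') (pj u ev (wout E d') (A g)) = pj u ev (wout E d') (A g) := by
      rw [pj_pj, Set.inter_self]
    have h2 := pj_wout h E d' (pj u ev (wout E d') (A g)) hd'.le
    rw [h1] at h2
    have h3 : pj u ev (win E d) (T g - (E : ℂ) • g) = T g - (E : ℂ) • g := by
      rw [pj_sub, pj_smul, ← pj_T h, hg, pj_pj, Set.inter_self]
    have h4 : T (pj u ev (wout E d') (A g)) - (E : ℂ) • pj u ev (wout E d') (A g)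
        = pj u ev (wout E d') (A (pj u ev (win E d) (T g - (E : ℂ) • g)))
          + pj u ev (wout E d') (T (A g) - A (T g)) := by
      rw [h3, pj_T h, ← pj_smul, ← pj_sub, key g, pj_add]
    rw [h4] at h2
    refine h2.trans ?_
    calc _ ≤ _ + _ := norm_add_le _ _
      _ ≤ a * ‖T g - (E : ℂ) • g‖ + ‖T (A g) - A (T g)‖ :=
          add_le_add (hB _) (pj_norm_le _ _ _ _)
      _ ≤ a * (d * ‖g‖) + c * ‖g‖ :=
          add_le_add (mul_le_mul_of_nonneg_left (pj_win h E d f hd) ha) (hA g)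
      _ = (d * a + c) * ‖g‖ := by ring
      _ ≤ _ := mul_le_mul_of_nonneg_left h0 (by positivity)

end Pool.Agent.H77.AM
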