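import Pool.Agent.H77.AM.G2

/-!
# Critical almost Mathieu operator (MP_29bb0a_mp): module G3, the abstract localisation lemma
helper77
-/

open Polynomial
open scoped ComplexConjugate

noncomputable section

namespace Pool.Agent.H77.AM

open Pool.Agent.H98.AM

/-! ## shells -/

section
variable {ι : Type} [Fintype ι]

theorem shell2 (w x : ι → ℝ) (W d0 : ℝ) (hw : ∀ i, 0 ≤ w i) (hd0 : 0 < d0) (hW : 0 ≤ W)
    (h : ∀ d, d0 ≤ d → ∑ i, (if x i ≤ d then w i else 0) ≤ W * d) (n : ℕ) :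
    ∑ i, (if d0 < x i ∧ x i ≤ 2 ^ n * d0 then w i / x i ^ 2 else 0)
      ≤ 4 * W / d0 * (1 - (1 / 2) ^ n) := by
  induction n with
  | zero =>
    simp only [pow_zero, one_mul, sub_self, mul_zero]
    apply le_of_eq
    apply Finset.sum_eq_zero
    intro i _
    rw [if_neg]
    rintro ⟨h1, h2⟩
    linarith
  | succ n ih =>
    have h2n : (0 : ℝ) < 2 ^ n := by positivity
    have h1n : (1 : ℝ) ≤ 2 ^ n := one_le_pow₀ (by norm_num)
    have hs : ∑ i, (if d0 < x i ∧ x i ≤ 2 ^ (n + 1) * d0 then w i / x i ^ 2 else 0)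
        ≤ ∑ i, (if d0 < x i ∧ x i ≤ 2 ^ n * d0 then w i / x i ^ 2 else 0)
          + 1 / (2 ^ n * d0) ^ 2 * ∑ i, (if x i ≤ 2 ^ (n + 1) * d0 then w i else 0) := by
      rw [Finset.mul_sum, ← Finset.sum_add_distrib]
      refine Finset.sum_le_sum fun i _ => ?_
      have hwi := hw i
      by_cases h1 : d0 < x i
      · by_cases h2 : x i ≤ 2 ^ n * d0
        · have h3 : x i ≤ 2 ^ (n + 1) * d0 := by
            refine h2.trans (mul_le_mul_of_nonneg_right ?_ hd0.le)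
            exact pow_le_pow_right₀ (by norm_num) (Nat.le_succ n)
          rw [if_pos ⟨h1, h3⟩, if_pos ⟨h1, h2⟩, if_pos h3]
          have : 0 ≤ 1 / (2 ^ n * d0) ^ 2 * w i := by positivity
          linarith
        · by_cases h3 : x i ≤ 2 ^ (n + 1) * d0
          · simp only [h1, h2, h3, and_true, and_false, if_true, if_false, zero_add]
            push Not at h2
            rw [div_mul_eq_mul_div, one_mul]
            apply div_le_div_of_nonneg_left hwi (by positivity)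
            exact pow_le_pow_left₀ (by positivity) h2.le 2
          · simp [h1, h2, h3]
      · rw [if_neg (fun h => h1 h.1), if_neg (fun h => h1 h.1), zero_add]
        split_ifs
        · positivity
        · simp
    have hle : d0 ≤ 2 ^ (n + 1) * d0 := by
      have : (1 : ℝ) ≤ 2 ^ (n + 1) := one_le_pow₀ (by norm_num)
      nlinarith
    have h5 : 1 / (2 ^ n * d0) ^ 2 * ∑ i, (if x i ≤ 2 ^ (n + 1) * d0 then w i else 0)
        ≤ 1 / (2 ^ n * d0) ^ 2 * (W * (2 ^ (n + 1) * d0)) :=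
      mul_le_mul_of_nonneg_left (h _ hle) (by positivity)
    have h6 : 1 / (2 ^ n * d0) ^ 2 * (W * (2 ^ (n + 1) * d0)) = 4 * W / d0 * (1 / 2) ^ (n + 1) := by
      rw [pow_succ, pow_succ, one_div_pow]
      field_simp
      ring
    have h7 : ((1 : ℝ) / 2) ^ (n + 1) = (1 / 2) ^ n / 2 := by
      rw [pow_succ]
      ring
    calc _ ≤ _ := hs
      _ ≤ 4 * W / d0 * (1 - (1 / 2) ^ n) + 4 * W / d0 * (1 / 2) ^ (n + 1) := by
          rw [← h6]
          exact add_le_add ih h5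
      _ = _ := by rw [h7]; ring

theorem shell2' (w x : ι → ℝ) (W d0 : ℝ) (hw : ∀ i, 0 ≤ w i) (hd0 : 0 < d0) (hW : 0 ≤ W)
    (h : ∀ d, d0 ≤ d → ∑ i, (if x i ≤ d then w i else 0) ≤ W * d) :
    ∑ i, (if d0 < x i then w i / x i ^ 2 else 0) ≤ 4 * W / d0 := by
  -- a power of two beyond all `x i`
  obtain ⟨n, hn⟩ : ∃ n : ℕ, ∀ i, x i ≤ 2 ^ n * d0 := by
    obtain ⟨n, hn⟩ := pow_unbounded_of_one_lt ((∑ i, |x i|) / d0) (by norm_num : (1 : ℝ) < 2)
    refine ⟨n, fun i => ?_⟩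
    have h1 : |x i| ≤ ∑ i, |x i| :=
      Finset.single_le_sum (f := fun i => |x i|) (fun _ _ => abs_nonneg _) (Finset.mem_univ i)
    have h2 : (∑ i, |x i|) / d0 * d0 ≤ 2 ^ n * d0 := mul_le_mul_of_nonneg_right hn.le hd0.le
    rw [div_mul_cancel₀ _ hd0.ne'] at h2
    exact (le_abs_self _).trans (h1.trans h2)
  have h1 := shell2 w x W d0 hw hd0 hW h n
  have h2 : ∑ i, (if d0 < x i ∧ x i ≤ 2 ^ n * d0 then w i / x i ^ 2 else 0)
      = ∑ i, (if d0 < x i then w i / x i ^ 2 else 0) := by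
    refine Finset.sum_congr rfl fun i _ => ?_
    by_cases h3 : d0 < x i
    · rw [if_pos ⟨h3, hn i⟩, if_pos h3]
    · rw [if_neg h3, if_neg (fun h => h3 h.1)]
  rw [← h2]
  refine h1.trans ?_
  have : 0 ≤ 4 * W / d0 := by positivity
  have h3 : (0 : ℝ) ≤ (1 / 2) ^ n := by positivity
  nlinarith

theorem shell1 (w x : ι → ℝ) (W d0 : ℝ) (hw : ∀ i, 0 ≤ w i) (hd0 : 0 < d0) (hW : 0 ≤ W)
    (h : ∀ d, d0 ≤ d → ∑ i, (if x i ≤ d then w i else 0) ≤ W * d) (n : ℕ) :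
    ∑ i, (if d0 < x i ∧ x i ≤ 2 ^ n * d0 then w i / x i else 0) ≤ 2 * W * n := by
  induction n with
  | zero =>
    simp only [pow_zero, one_mul, Nat.cast_zero, mul_zero]
    apply le_of_eq
    apply Finset.sum_eq_zero
    intro i _
    rw [if_neg]
    rintro ⟨h1, h2⟩
    linarith
  | succ n ih =>
    have h2n : (0 : ℝ) < 2 ^ n := by positivity
    have hs : ∑ i, (if d0 < x i ∧ x i ≤ 2 ^ (n + 1) * d0 then w i / x i else 0)
        ≤ ∑ i, (if d0 < x i ∧ x i ≤ 2 ^ n * d0 then w i / x i else 0)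
          + 1 / (2 ^ n * d0) * ∑ i, (if x i ≤ 2 ^ (n + 1) * d0 then w i else 0) := by
      rw [Finset.mul_sum, ← Finset.sum_add_distrib]
      refine Finset.sum_le_sum fun i _ => ?_
      have hwi := hw i
      by_cases h1 : d0 < x i
      · by_cases h2 : x i ≤ 2 ^ n * d0
        · have h3 : x i ≤ 2 ^ (n + 1) * d0 := by
            refine h2.trans (mul_le_mul_of_nonneg_right ?_ hd0.le)
            exact pow_le_pow_right₀ (by norm_num) (Nat.le_succ n)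
          rw [if_pos ⟨h1, h3⟩, if_pos ⟨h1, h2⟩, if_pos h3]
          have : 0 ≤ 1 / (2 ^ n * d0) * w i := by positivity
          linarith
        · by_cases h3 : x i ≤ 2 ^ (n + 1) * d0
          · simp only [h1, h2, h3, and_true, and_false, if_true, if_false, zero_add]
            push Not at h2
            rw [div_mul_eq_mul_div, one_mul]
            exact div_le_div_of_nonneg_left hwi (by positivity) h2.le
          · simp [h1, h2, h3]
      · rw [if_neg (fun h => h1 h.1), if_neg (fun h => h1 h.1), zero_add]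
        split_ifs
        · positivity
        · simp
    have hle : d0 ≤ 2 ^ (n + 1) * d0 := by
      have : (1 : ℝ) ≤ 2 ^ (n + 1) := one_le_pow₀ (by norm_num)
      nlinarith
    have h5 : 1 / (2 ^ n * d0) * ∑ i, (if x i ≤ 2 ^ (n + 1) * d0 then w i else 0)
        ≤ 1 / (2 ^ n * d0) * (W * (2 ^ (n + 1) * d0)) :=
      mul_le_mul_of_nonneg_left (h _ hle) (by positivity)
    have h6 : 1 / (2 ^ n * d0) * (W * (2 ^ (n + 1) * d0)) = 2 * W := by
      rw [pow_succ]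
      field_simp
    calc _ ≤ _ := hs
      _ ≤ 2 * W * n + 2 * W := add_le_add ih (h5.trans h6.le)
      _ = _ := by push_cast; ring

end

section
variable {𝓗 : Type} [NormedAddCommGroup 𝓗] [InnerProductSpace ℂ 𝓗] {ι : Type} [Fintype ι]

/-- duality -/
theorem dual_bound (A B : 𝓗 →ₗ[ℂ] 𝓗) (c : ℝ) (hAB : ∀ f g, inner ℂ (A f) g = inner ℂ f (B g))
    (hA : ∀ f, ‖A f‖ ≤ c * ‖f‖) (g : 𝓗) : ‖B g‖ ≤ c * ‖g‖ := by
  have h1 : ‖B g‖ * ‖B g‖ ≤ c * ‖B g‖ * ‖g‖ := by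
    calc ‖B g‖ * ‖B g‖ = ‖inner ℂ (B g) (B g)‖ := by
          rw [inner_self_eq_norm_sq_to_K, norm_pow]
          simp [sq]
      _ = ‖inner ℂ (A (B g)) g‖ := by rw [hAB]
      _ ≤ ‖A (B g)‖ * ‖g‖ := norm_inner_le_norm _ _
      _ ≤ c * ‖B g‖ * ‖g‖ := mul_le_mul_of_nonneg_right (hA _) (norm_nonneg _)
  rcases eq_or_lt_of_le (norm_nonneg (B g)) with h0 | h0
  · have h3 := hA g
    have h4 : 0 ≤ c * ‖g‖ := (norm_nonneg _).trans h3
    rw [← h0]
    exact h4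
  · have h5 : ‖B g‖ * ‖B g‖ ≤ (c * ‖g‖) * ‖B g‖ := by nlinarith
    exact le_of_mul_le_mul_right h5 h0

theorem fc_real_sa (u : OrthonormalBasis ι ℂ 𝓗) (φ : ι → ℂ) (hφ : ∀ i, conj (φ i) = φ i)
    (f g : 𝓗) : inner ℂ (fc u φ f) g = inner ℂ f (fc u φ g) := by
  rw [eb_inner u, eb_inner u f]
  refine Finset.sum_congr rfl fun i _ => ?_
  rw [eb_inner_fc, eb_inner_fc, map_mul, hφ]
  ring

theorem rv_sa (u : OrthonormalBasis ι ℂ 𝓗) (ev : ι → ℝ) (E d : ℝ) (f g : 𝓗) :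
    inner ℂ (rv u ev E d f) g = inner ℂ f (rv u ev E d g) := by
  classical
  unfold rv
  apply fc_real_sa
  intro i
  split_ifs
  · rw [map_inv₀, Complex.conj_ofReal]
  · simp

theorem rv_pj_wout (u : OrthonormalBasis ι ℂ 𝓗) (ev : ι → ℝ) (E e d1 : ℝ) (he : e ≤ d1) (f : 𝓗) :
    rv u ev E e (pj u ev (wout E d1) f) = rv u ev E d1 f := by
  classical
  apply eb_ext u
  intro i
  unfold rv
  rw [eb_inner_fc, eb_inner_fc, eb_inner_pj]
  by_cases h1 : ev i ∈ wout E d1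
  · have h2 : ev i ∈ wout E e := by
      have h3 : d1 < |ev i - E| := h1
      exact lt_of_le_of_lt he h3
    simp [h1, h2]
  · simp [h1]

end

section
variable {𝓗 : Type} [NormedAddCommGroup 𝓗] [InnerProductSpace ℂ 𝓗] {ι : Type} [Fintype ι]
  (u : OrthonormalBasis ι ℂ 𝓗) (ev : ι → ℝ) (Q : 𝓗 →ₗ[ℂ] 𝓗) (E e Ω : ℝ)

theorem weights (hΩ : ∀ d, e ≤ d → ∀ f, ‖pj u ev (win E d) (Q f)‖ ^ 2 ≤ Ω * d * ‖f‖ ^ 2) (f : 𝓗)
    (d : ℝ) (hd : e ≤ d) :
    ∑ i, (if |ev i - E| ≤ d then ‖inner ℂ (u i) (Q f)‖ ^ 2 else 0) ≤ (Ω * ‖f‖ ^ 2) * d := by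
  classical
  have h := hΩ d hd f
  rw [pj_norm_sq] at h
  calc _ = ∑ i, (if ev i ∈ win E d then ‖inner ℂ (u i) (Q f)‖ ^ 2 else 0) :=
        Finset.sum_congr rfl fun i _ => by
          by_cases h1 : |ev i - E| ≤ d
          · rw [if_pos h1, if_pos (show ev i ∈ win E d from h1)]
          · rw [if_neg h1, if_neg (show ¬ ev i ∈ win E d from h1)]
    _ ≤ _ := h
    _ = _ := by ring

/-- (a) -/
theorem rvQ (hΩ0 : 0 ≤ Ω) (d0 : ℝ) (hd0 : 0 < d0) (he : e ≤ d0)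
    (hΩ : ∀ d, e ≤ d → ∀ f, ‖pj u ev (win E d) (Q f)‖ ^ 2 ≤ Ω * d * ‖f‖ ^ 2) (f : 𝓗) :
    ‖rv u ev E d0 (Q f)‖ ≤ 2 * Real.sqrt (Ω / d0) * ‖f‖ := by
  classical
  rw [← abs_of_nonneg (norm_nonneg (rv u ev E d0 (Q f))),
    ← abs_of_nonneg (by positivity : 0 ≤ 2 * Real.sqrt (Ω / d0) * ‖f‖), ← sq_le_sq, mul_pow,
    mul_pow, Real.sq_sqrt (by positivity), eb_norm u]
  have h1 := shell2' (fun i => ‖inner ℂ (u i) (Q f)‖ ^ 2) (fun i => |ev i - E|) (Ω * ‖f‖ ^ 2) d0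
    (fun i => by positivity) hd0 (by positivity)
    (fun d hd => weights u ev Q E e Ω hΩ f d (he.trans hd))
  calc _ = _ := Finset.sum_congr rfl fun i _ => ?_
    _ ≤ _ := h1
    _ = _ := by ring
  unfold rv
  rw [eb_inner_fc]
  simp only [wout, Set.mem_ofPred_eq]
  split_ifs
  · rw [norm_mul, norm_inv, Complex.norm_real, Real.norm_eq_abs, mul_pow, inv_pow]
    rw [div_eq_inv_mul]
  · simp

/-- (a), dual -/
theorem Qrv (hQ : ∀ f g, inner ℂ (Q f) g = inner ℂ f (Q g)) (hΩ0 : 0 ≤ Ω) (d0 : ℝ) (hd0 : 0 < d0)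
    (he : e ≤ d0)
    (hΩ : ∀ d, e ≤ d → ∀ f, ‖pj u ev (win E d) (Q f)‖ ^ 2 ≤ Ω * d * ‖f‖ ^ 2) (f : 𝓗) :
    ‖Q (rv u ev E d0 f)‖ ≤ 2 * Real.sqrt (Ω / d0) * ‖f‖ := by
  apply dual_bound (rv u ev E d0 ∘ₗ Q) (Q ∘ₗ rv u ev E d0) _ _ _ f
  · intro f g
    simp only [LinearMap.comp_apply]
    rw [rv_sa, hQ]
  · intro f
    exact rvQ u ev Q E e Ω hΩ0 d0 hd0 he hΩ f

/-- (c) -/
theorem Qpj (hQ : ∀ f g, inner ℂ (Q f) g = inner ℂ f (Q g)) (hΩ0 : 0 ≤ Ω) (he : 0 < e)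
    (hΩ : ∀ d, e ≤ d → ∀ f, ‖pj u ev (win E d) (Q f)‖ ^ 2 ≤ Ω * d * ‖f‖ ^ 2) (f : 𝓗) :
    ‖Q (pj u ev (win E e) f)‖ ≤ Real.sqrt (Ω * e) * ‖f‖ := by
  apply dual_bound (pjl u ev (win E e) ∘ₗ Q) (Q ∘ₗ pjl u ev (win E e)) _ _ _ f
  · intro f g
    simp only [LinearMap.comp_apply, pjl_apply]
    rw [pj_inner, hQ]
  · intro f
    simp only [LinearMap.comp_apply, pjl_apply]
    rw [← abs_of_nonneg (norm_nonneg (pj u ev (win E e) (Q f))),
      ← abs_of_nonneg (by positivity : 0 ≤ Real.sqrt (Ω * e) * ‖f‖), ← sq_le_sq, mul_pow,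
      Real.sq_sqrt (by positivity)]
    exact hΩ e le_rfl f

/-- (b) -/
theorem QrvQ (hQ : ∀ f g, inner ℂ (Q f) g = inner ℂ f (Q g)) (hΩ0 : 0 ≤ Ω) (he : 0 < e) (K0 : ℕ)
    (hK0 : ∀ i, |ev i - E| ≤ 2 ^ K0 * e)
    (hΩ : ∀ d, e ≤ d → ∀ f, ‖pj u ev (win E d) (Q f)‖ ^ 2 ≤ Ω * d * ‖f‖ ^ 2) (f : 𝓗) :
    ‖Q (rv u ev E e (Q f))‖ ≤ 2 * Ω * K0 * ‖f‖ := by
  classical
  have hS : ∀ f : 𝓗, ∑ i, (if e < |ev i - E| then ‖inner ℂ (u i) (Q f)‖ ^ 2 / |ev i - E| else 0)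
      ≤ 2 * (Ω * ‖f‖ ^ 2) * K0 := by
    intro f
    have h1 := shell1 (fun i => ‖inner ℂ (u i) (Q f)‖ ^ 2) (fun i => |ev i - E|) (Ω * ‖f‖ ^ 2) e
      (fun i => by positivity) he (by positivity)
      (fun d hd => weights u ev Q E e Ω hΩ f d hd) K0
    refine le_trans (le_of_eq ?_) h1
    refine Finset.sum_congr rfl fun i _ => ?_
    by_cases h2 : e < |ev i - E|
    · rw [if_pos h2, if_pos ⟨h2, hK0 i⟩]
    · rw [if_neg h2, if_neg (fun h => h2 h.1)]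
  -- Cauchy-Schwarz
  have hCS : ∀ f g : 𝓗, ‖inner ℂ g (Q (rv u ev E e (Q f)))‖ ≤ 2 * Ω * K0 * (‖f‖ * ‖g‖) := by
    intro f g
    rw [← hQ, eb_inner u]
    set a : ι → ℝ := fun i => if e < |ev i - E| then
      ‖inner ℂ (u i) (Q g)‖ / Real.sqrt |ev i - E| else 0 with ha
    set b : ι → ℝ := fun i => if e < |ev i - E| then
      ‖inner ℂ (u i) (Q f)‖ / Real.sqrt |ev i - E| else 0 with hb
    have h1 : ‖∑ i, conj (inner ℂ (u i) (Q g)) * inner ℂ (u i) (rv u ev E e (Q f))‖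
        ≤ ∑ i, a i * b i := by
      refine (norm_sum_le _ _).trans (le_of_eq (Finset.sum_congr rfl fun i _ => ?_))
      unfold rv
      rw [eb_inner_fc, ha, hb]
      simp only [wout, Set.mem_ofPred_eq]
      split_ifs with h2
      · rw [norm_mul, norm_mul, norm_inv, Complex.norm_real, Real.norm_eq_abs, RCLike.norm_conj]
        have h3 : 0 < |ev i - E| := he.trans h2
        rw [div_mul_div_comm, Real.mul_self_sqrt h3.le]
        field_simp
      · simp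
    have h2 : (∑ i, a i * b i) ^ 2 ≤ (∑ i, a i ^ 2) * ∑ i, b i ^ 2 :=
      Finset.sum_mul_sq_le_sq_mul_sq _ _ _
    have h3 : ∀ (f : 𝓗), ∑ i, (if e < |ev i - E| then
        ‖inner ℂ (u i) (Q f)‖ / Real.sqrt |ev i - E| else 0) ^ 2 ≤ 2 * (Ω * ‖f‖ ^ 2) * K0 := by
      intro f
      refine le_trans (le_of_eq (Finset.sum_congr rfl fun i _ => ?_)) (hS f)
      split_ifs with h2
      · have h3 : 0 < |ev i - E| := he.trans h2
        rw [div_pow, Real.sq_sqrt h3.le]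
      · simp
    have h4 : (∑ i, a i * b i) ^ 2 ≤ (2 * Ω * K0 * (‖f‖ * ‖g‖)) ^ 2 := by
      refine h2.trans ?_
      calc (∑ i, a i ^ 2) * ∑ i, b i ^ 2
          ≤ (2 * (Ω * ‖g‖ ^ 2) * K0) * (2 * (Ω * ‖f‖ ^ 2) * K0) :=
            mul_le_mul (h3 g) (h3 f) (Finset.sum_nonneg fun i _ => sq_nonneg _) (by positivity)
        _ = _ := by ring
    have h5 : 0 ≤ ∑ i, a i * b i := by
      apply Finset.sum_nonneg
      intro i _
      rw [ha, hb]
      simp only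
      split_ifs
      · positivity
      · simp
    exact h1.trans (abs_le_of_sq_le_sq' h4 (by positivity)).2
  have h6 := hCS f (Q (rv u ev E e (Q f)))
  set y := Q (rv u ev E e (Q f)) with hy
  have h7 : ‖inner ℂ y y‖ = ‖y‖ * ‖y‖ := by
    rw [inner_self_eq_norm_sq_to_K, norm_pow]
    simp [sq]
  rw [h7] at h6
  rcases eq_or_lt_of_le (norm_nonneg y) with h0 | h0
  · rw [← h0]
    positivity
  · have h8 : ‖y‖ * ‖y‖ ≤ (2 * Ω * K0 * ‖f‖) * ‖y‖ := by nlinarith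
    exact le_of_mul_le_mul_right h8 h0

end

theorem g3 : T_G3 := by
  intro 𝓗 _ _ ι _ T u ev h Q hQQ hQ E e d1 Ω lam Λ ν η m0 J K0 he hed hΩ0 hlam hΛ hν hη hηe hK0 hΩ
    hΘ Φ g K V heq hKQ hK hV hVν hg hΦ
  have hd1 : 0 < d1 := lt_of_lt_of_le he hed
  have hm0 : 0 ≤ m0 := (norm_nonneg _).trans (hΦ 0 (by omega))
  set κ := ν + Λ * (lam + Λ + η) / d1 with hκ
  have hκ0 : 0 ≤ κ := by positivity
  have hQn : ∀ f, ‖Q f‖ ≤ ‖f‖ := by
    intro f
    have h1 : ‖Q f‖ * ‖Q f‖ ≤ ‖Q f‖ * ‖f‖ := by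
      calc ‖Q f‖ * ‖Q f‖ = ‖inner ℂ (Q f) (Q f)‖ := by
            rw [inner_self_eq_norm_sq_to_K, norm_pow]
            simp [sq]
        _ = ‖inner ℂ (Q f) f‖ := by rw [← hQ, hQQ]
        _ ≤ ‖Q f‖ * ‖f‖ := norm_inner_le_norm _ _
    rcases eq_or_lt_of_le (norm_nonneg (Q f)) with h0 | h0
    · rw [← h0]
      exact norm_nonneg _
    · exact le_of_mul_le_mul_left h1 h0
  -- far part of `Φ`
  have hfar : ∀ j ≤ J + 1, ‖pj u ev (wout E d1) (Φ j)‖ ≤ (lam + Λ + η) * m0 / d1 := by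
    intro j hj
    rw [le_div_iff₀ hd1, mul_comm]
    refine (pj_wout h E d1 (Φ j) hd1.le).trans ?_
    rw [heq j hj]
    have h1 : ‖Φ (j + 1)‖ ≤ m0 := hΦ _ (by omega)
    calc _ ≤ ‖K j (Φ (j + 1)) + V j (Φ (j + 1))‖ + ‖g j‖ := norm_add_le _ _
      _ ≤ (‖K j (Φ (j + 1))‖ + ‖V j (Φ (j + 1))‖) + ‖g j‖ := by gcongr; exact norm_add_le _ _
      _ ≤ (lam * m0 + Λ * m0) + η * m0 := by
          gcongr
          · exact (hK j hj _).trans (mul_le_mul_of_nonneg_left h1 hlam)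
          · exact (hV j hj _).trans (mul_le_mul_of_nonneg_left h1 hΛ)
          · exact hg j hj
      _ = _ := by ring
  -- decomposition of `V j (Φ (j+1))`
  have hdec : ∀ j ≤ J, ∃ a b : 𝓗, V j (Φ (j + 1)) = a + pj u ev (wout E d1) b ∧
      ‖a‖ ≤ κ * m0 ∧ ‖b‖ ≤ Λ * m0 := by
    intro j hj
    set x := pj u ev (win E d1) (Φ (j + 1)) with hx
    set y := pj u ev (wout E d1) (Φ (j + 1)) with hy
    have hxy : Φ (j + 1) = x + y := by
      have := pj_compl u ev (win E d1) (Φ (j + 1))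
      rw [win_compl] at this
      exact this.symm
    have h1 : ‖Φ (j + 1)‖ ≤ m0 := hΦ _ (by omega)
    have hx1 : ‖x‖ ≤ m0 := (pj_norm_le _ _ _ _).trans h1
    refine ⟨pj u ev (win E d1) (V j x) + V j y, V j x, ?_, ?_, ?_⟩
    · rw [hxy, map_add]
      have := pj_compl u ev (win E d1) (V j x)
      rw [win_compl] at this
      conv_lhs => rw [← this]
      abel
    · refine (norm_add_le _ _).trans ?_
      have h2 : ‖pj u ev (win E d1) (V j x)‖ ≤ ν * m0 :=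
        (hVν j (by omega) _).trans (mul_le_mul_of_nonneg_left h1 hν)
      have h3 : ‖V j y‖ ≤ Λ * ((lam + Λ + η) * m0 / d1) :=
        (hV j (by omega) _).trans (mul_le_mul_of_nonneg_left (hfar (j + 1) (by omega)) hΛ)
      calc _ ≤ ν * m0 + Λ * ((lam + Λ + η) * m0 / d1) := add_le_add h2 h3
        _ = κ * m0 := by rw [hκ]; ring
    · exact (hV j (by omega) _).trans (mul_le_mul_of_nonneg_left hx1 hΛ)
  -- resolvent formula
  have hres : ∀ j ≤ J + 1, pj u ev (wout E e) (Φ j)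
      = rv u ev E e (K j (Φ (j + 1))) + rv u ev E e (V j (Φ (j + 1))) + rv u ev E e (g j) := by
    intro j hj
    rw [← rv_spec' h E e he.le, heq j hj, map_add, map_add]
  set q : ℕ → ℝ := fun j => ‖Q (Φ j)‖ with hq
  set A := 3 * Real.sqrt (Ω * e) + 2 * Real.sqrt (Ω / e) * κ + 2 * Real.sqrt (Ω / d1) * Λ with hA
  have hA0 : 0 ≤ A := by positivity
  set Θ := 2 * Ω * K0 * lam with hΘ'
  have hΘ0 : 0 ≤ Θ := by positivity
  have hsq : Real.sqrt (Ω / e) * η ≤ Real.sqrt (Ω * e) := by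
    calc Real.sqrt (Ω / e) * η ≤ Real.sqrt (Ω / e) * e := by gcongr
      _ = Real.sqrt (Ω / e) * Real.sqrt (e ^ 2) := by rw [Real.sqrt_sq he.le]
      _ = Real.sqrt (Ω / e * e ^ 2) := by rw [Real.sqrt_mul (by positivity)]
      _ = Real.sqrt (Ω * e) := by
          congr 1
          field_simp
  have hrec : ∀ j ≤ J, q j ≤ A * m0 + Θ * q (j + 1) := by
    intro j hj
    have h0 : Φ j = pj u ev (win E e) (Φ j) + pj u ev (wout E e) (Φ j) := by
      have := pj_compl u ev (win E e) (Φ j)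
      rw [win_compl] at this
      exact this.symm
    obtain ⟨a, b, hab, ha, hb⟩ := hdec j hj
    have h1 : ‖Φ j‖ ≤ m0 := hΦ _ (by omega)
    have e1 : ‖Q (pj u ev (win E e) (Φ j))‖ ≤ Real.sqrt (Ω * e) * m0 :=
      (Qpj u ev Q E e Ω hQ hΩ0 he hΩ _).trans (by gcongr)
    have e2 : ‖Q (rv u ev E e (K j (Φ (j + 1))))‖ ≤ Θ * q (j + 1) := by
      rw [hKQ j (by omega)]
      refine (QrvQ u ev Q E e Ω hQ hΩ0 he K0 hK0 hΩ _).trans ?_
      have h2 := hK j (by omega) (Q (Φ (j + 1)))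
      calc _ ≤ 2 * Ω * K0 * (lam * ‖Q (Φ (j + 1))‖) := by gcongr
        _ = _ := by rw [hΘ', hq]; ring
    have e3 : ‖Q (rv u ev E e (V j (Φ (j + 1))))‖
        ≤ (2 * Real.sqrt (Ω / e) * κ + 2 * Real.sqrt (Ω / d1) * Λ) * m0 := by
      rw [hab, map_add, map_add, rv_pj_wout u ev E e d1 hed]
      refine (norm_add_le _ _).trans ?_
      have h3 := Qrv u ev Q E e Ω hQ hΩ0 e he le_rfl hΩ a
      have h4 := Qrv u ev Q E e Ω hQ hΩ0 d1 hd1 hed hΩ b
      calc _ ≤ 2 * Real.sqrt (Ω / e) * ‖a‖ + 2 * Real.sqrt (Ω / d1) * ‖b‖ := add_le_add h3 h4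
        _ ≤ 2 * Real.sqrt (Ω / e) * (κ * m0) + 2 * Real.sqrt (Ω / d1) * (Λ * m0) := by gcongr
        _ = _ := by ring
    have e4 : ‖Q (rv u ev E e (g j))‖ ≤ 2 * Real.sqrt (Ω * e) * m0 := by
      refine (Qrv u ev Q E e Ω hQ hΩ0 e he le_rfl hΩ (g j)).trans ?_
      have h3 := hg j (by omega)
      calc _ ≤ 2 * Real.sqrt (Ω / e) * (η * m0) := by gcongr
        _ = 2 * (Real.sqrt (Ω / e) * η) * m0 := by ring
        _ ≤ 2 * Real.sqrt (Ω * e) * m0 := by gcongr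
    have e5 : Q (Φ j) = Q (pj u ev (win E e) (Φ j)) + Q (rv u ev E e (K j (Φ (j + 1))))
        + Q (rv u ev E e (V j (Φ (j + 1)))) + Q (rv u ev E e (g j)) := by
      conv_lhs => rw [h0, hres j (by omega)]
      rw [map_add, map_add, map_add]
      abel
    calc q j = ‖Q (Φ j)‖ := rfl
      _ ≤ ‖Q (pj u ev (win E e) (Φ j))‖ + ‖Q (rv u ev E e (K j (Φ (j + 1))))‖
          + ‖Q (rv u ev E e (V j (Φ (j + 1))))‖ + ‖Q (rv u ev E e (g j))‖ := by
          rw [e5]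
          refine (norm_add_le _ _).trans (add_le_add ?_ le_rfl)
          refine (norm_add_le _ _).trans (add_le_add ?_ le_rfl)
          exact norm_add_le _ _
      _ ≤ Real.sqrt (Ω * e) * m0 + Θ * q (j + 1)
          + (2 * Real.sqrt (Ω / e) * κ + 2 * Real.sqrt (Ω / d1) * Λ) * m0
          + 2 * Real.sqrt (Ω * e) * m0 := by gcongr
      _ = A * m0 + Θ * q (j + 1) := by rw [hA]; ring
  -- iteration
  have hit : ∀ n ≤ J + 1, q (J + 1 - n) ≤ 2 * A * m0 + Θ ^ n * m0 := by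
    intro n
    induction n with
    | zero =>
      intro _
      have h1 : q (J + 1 - 0) ≤ m0 := (hQn _).trans (hΦ _ (by omega))
      have h2 : 0 ≤ 2 * A * m0 := by positivity
      rw [pow_zero, one_mul]
      linarith
    | succ n ih =>
      intro hn
      have h1 := ih (by omega)
      have h2 := hrec (J + 1 - (n + 1)) (by omega)
      have h3 : J + 1 - (n + 1) + 1 = J + 1 - n := by omega
      rw [h3] at h2
      calc _ ≤ A * m0 + Θ * q (J + 1 - n) := h2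
        _ ≤ A * m0 + Θ * (2 * A * m0 + Θ ^ n * m0) := by gcongr
        _ = A * m0 + Θ * (2 * A * m0) + Θ ^ (n + 1) * m0 := by ring
        _ ≤ A * m0 + (1 / 2) * (2 * A * m0) + Θ ^ (n + 1) * m0 := by gcongr
        _ = _ := by ring
  have hB : (Θ ^ J + 6 * Real.sqrt (Ω * e) + 4 * Real.sqrt (Ω / e) * κ
      + 4 * Real.sqrt (Ω / d1) * Λ) * m0 = 2 * A * m0 + Θ ^ J * m0 := by
    rw [hA]; ring
  have hq0 : q 0 ≤ 2 * A * m0 + Θ ^ J * m0 := by
    have h1 := hit (J + 1) le_rfl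
    rw [Nat.sub_self] at h1
    refine h1.trans ?_
    gcongr 2 * A * m0 + ?_ * m0
    exact pow_le_pow_of_le_one hΘ0 (by linarith) (Nat.le_succ J)
  have hq1 : q 1 ≤ 2 * A * m0 + Θ ^ J * m0 := by
    have h1 := hit J (Nat.le_succ J)
    have h2 : J + 1 - J = 1 := by omega
    rwa [h2] at h1
  refine ⟨?_, ?_⟩
  · rw [hB]
    exact hq0
  · rw [hB.symm] at hq1
    set B := Θ ^ J + 6 * Real.sqrt (Ω * e) + 4 * Real.sqrt (Ω / e) * κ
      + 4 * Real.sqrt (Ω / d1) * Λ with hBd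
    obtain ⟨a, b, hab, ha, hb⟩ := hdec 0 (by omega)
    rw [hres 0 (by omega)]
    have e2 : ‖rv u ev E e (K 0 (Φ (0 + 1)))‖ ≤ 2 * Real.sqrt (Ω / e) * lam * (B * m0) := by
      rw [hKQ 0 (by omega)]
      refine (rvQ u ev Q E e Ω hΩ0 e he le_rfl hΩ _).trans ?_
      have h2 := hK 0 (by omega) (Q (Φ (0 + 1)))
      calc _ ≤ 2 * Real.sqrt (Ω / e) * (lam * ‖Q (Φ (0 + 1))‖) := by gcongr
        _ ≤ 2 * Real.sqrt (Ω / e) * (lam * (B * m0)) := by
            gcongr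
        _ = _ := by ring
    have hre : ∀ (d : ℝ), 0 < d → ∀ f : 𝓗, ‖rv u ev E d f‖ ≤ ‖f‖ / d := by
      intro d hd f
      rw [le_div_iff₀ hd, mul_comm]
      exact rv_norm_le u ev E d hd f
    have e3 : ‖rv u ev E e (V 0 (Φ (0 + 1)))‖ ≤ (κ / e + Λ / d1) * m0 := by
      rw [hab, map_add, rv_pj_wout u ev E e d1 hed]
      refine (norm_add_le _ _).trans ?_
      calc _ ≤ ‖a‖ / e + ‖b‖ / d1 := add_le_add (hre e he a) (hre d1 hd1 b)
        _ ≤ κ * m0 / e + Λ * m0 / d1 := by gcongr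
        _ = _ := by ring
    have e4 : ‖rv u ev E e (g 0)‖ ≤ η / e * m0 := by
      calc _ ≤ ‖g 0‖ / e := hre e he _
        _ ≤ η * m0 / e := by
            gcongr
            exact hg 0 (by omega)
        _ = _ := by ring
    calc _ ≤ ‖rv u ev E e (K 0 (Φ (0 + 1)))‖ + ‖rv u ev E e (V 0 (Φ (0 + 1)))‖
          + ‖rv u ev E e (g 0)‖ := by
          refine (norm_add_le _ _).trans (add_le_add ?_ le_rfl)
          exact norm_add_le _ _
      _ ≤ 2 * Real.sqrt (Ω / e) * lam * (B * m0) + (κ / e + Λ / d1) * m0 + η / e * m0 := by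
          gcongr
      _ = _ := by ring

end Pool.Agent.H77.AM
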