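import Pool.Agent.H77.AM.G3
import Pool.Agent.H33.AM.H4
import Pool.Agent.H11.AM.H3
import Pool.Agent.H98.AM.Basic

/-!
# Critical almost Mathieu operator (MP_29bb0a_mp): module H5, the perturbation on a window
helper77
-/

open Polynomial
open scoped ComplexConjugate

noncomputable section

namespace Pool.Agent.H77.AM

open Pool.Agent.H98.AM

/-! ## the second order Taylor bound -/

theorem taylor_aux (y : ℝ) (hy : 0 ≤ y) :
    (Real.cos y - 1) ^ 2 + (Real.sin y - y) ^ 2 ≤ (y ^ 2 / 2) ^ 2 := by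
  set F : ℝ → ℝ := fun y => y ^ 4 / 4 - 2 + 2 * Real.cos y - y ^ 2 + 2 * y * Real.sin y with hF
  have hder : ∀ y, HasDerivAt F (y ^ 3 - 2 * y + 2 * y * Real.cos y) y := by
    intro y
    have h1 := ((hasDerivAt_pow 4 y).div_const 4).sub_const 2
    have h2 := (Real.hasDerivAt_cos y).const_mul 2
    have h3 := hasDerivAt_pow 2 y
    have h4 := ((hasDerivAt_id y).const_mul 2).mul (Real.hasDerivAt_sin y)
    have h5 := ((h1.add h2).sub h3).add h4
    refine h5.congr_deriv ?_
    simp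
    ring
  have hmono : MonotoneOn F (Set.Ici 0) := by
    apply monotoneOn_of_deriv_nonneg (convex_Ici 0)
    · exact fun x _ => (hder x).continuousAt.continuousWithinAt
    · exact fun x _ => (hder x).differentiableAt.differentiableWithinAt
    · intro x hx
      rw [interior_Ici] at hx
      have hx' : 0 < x := hx
      rw [(hder x).deriv]
      have := Real.one_sub_sq_div_two_le_cos (x := x)
      nlinarith
  have h1 := hmono (Set.mem_Ici.2 le_rfl) (Set.mem_Ici.2 hy) hy
  have h0 : F 0 = 0 := by simp [hF]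
  rw [h0] at h1
  have h2 := Real.sin_sq_add_cos_sq y
  simp only [hF] at h1
  nlinarith

theorem norm_ex_taylor (x : ℝ) :
    ‖ex x - 1 - 2 * Real.pi * x * Complex.I‖ ≤ 2 * Real.pi ^ 2 * x ^ 2 := by
  set y := 2 * Real.pi * x with hy
  have h0 : ‖ex x - 1 - 2 * Real.pi * x * Complex.I‖ ^ 2
      = (Real.cos y - 1) ^ 2 + (Real.sin y - y) ^ 2 := by
    have e1 : ex x = (Real.cos y : ℂ) + (Real.sin y : ℂ) * Complex.I := by
      unfold ex
      rw [show (2 * Real.pi * x * Complex.I : ℂ) = ((y : ℝ) : ℂ) * Complex.I by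
        rw [hy]; push_cast; ring, Complex.exp_mul_I, Complex.ofReal_cos, Complex.ofReal_sin]
    rw [e1, ← Complex.normSq_eq_norm_sq]
    have e2 : (Real.cos y : ℂ) + (Real.sin y : ℂ) * Complex.I - 1 - 2 * Real.pi * x * Complex.I
        = ((Real.cos y - 1 : ℝ) : ℂ) + ((Real.sin y - y : ℝ) : ℂ) * Complex.I := by
      rw [hy]
      push_cast
      ring
    rw [e2, Complex.normSq_add_mul_I]
  have h1 : (Real.cos y - 1) ^ 2 + (Real.sin y - y) ^ 2 ≤ (y ^ 2 / 2) ^ 2 := by
    rcases le_total 0 y with h | h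
    · exact taylor_aux y h
    · have := taylor_aux (-y) (by linarith)
      rw [Real.cos_neg, Real.sin_neg] at this
      nlinarith
  have h2 : ‖ex x - 1 - 2 * Real.pi * x * Complex.I‖ ^ 2 ≤ (2 * Real.pi ^ 2 * x ^ 2) ^ 2 := by
    rw [h0]
    refine h1.trans (le_of_eq ?_)
    rw [hy]
    ring
  exact le_of_sq_le_sq h2 (by positivity)

/-! ## hopping operators -/

/-- norm of a function given by nearest neighbour hopping -/
theorem norm_hop_le {N : ℕ} [NeZero N] (a b : ZMod N → ℂ) (A B : ℝ) (hA : ∀ n, ‖a n‖ ≤ A)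
    (hB : ∀ n, ‖b n‖ ≤ B) (f g : Rg N) (h : ∀ n, g n = a n * f (n - 1) + b n * f (n + 1)) :
    ‖g‖ ≤ (A + B) * ‖f‖ := by
  have hA0 : 0 ≤ A := (norm_nonneg _).trans (hA 0)
  have hB0 : 0 ≤ B := (norm_nonneg _).trans (hB 0)
  set g1 : Rg N := WithLp.toLp 2 fun n => a n * f (n - 1) with hg1
  set g2 : Rg N := WithLp.toLp 2 fun n => b n * f (n + 1) with hg2
  have h0 : g = g1 + g2 := by
    ext n
    exact h n
  have h1 : ‖g1‖ ≤ A * ‖f‖ := by
    refine le_of_sq_le_sq ?_ (by positivity)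
    rw [mul_pow, EuclideanSpace.norm_sq_eq, EuclideanSpace.norm_sq_eq]
    have e : ∑ i, ‖f i‖ ^ 2 = ∑ n, ‖f (n - 1)‖ ^ 2 :=
      (Equiv.sum_comp (Equiv.subRight (1 : ZMod N)) (fun y => ‖f y‖ ^ 2)).symm
    rw [e, Finset.mul_sum]
    refine Finset.sum_le_sum fun n _ => ?_
    have h2 : g1 n = a n * f (n - 1) := rfl
    rw [h2, norm_mul, mul_pow]
    have h3 : ‖a n‖ ^ 2 ≤ A ^ 2 := pow_le_pow_left₀ (norm_nonneg _) (hA n) 2
    exact mul_le_mul_of_nonneg_right h3 (by positivity)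
  have h2 : ‖g2‖ ≤ B * ‖f‖ := by
    refine le_of_sq_le_sq ?_ (by positivity)
    rw [mul_pow, EuclideanSpace.norm_sq_eq, EuclideanSpace.norm_sq_eq]
    have e : ∑ i, ‖f i‖ ^ 2 = ∑ n, ‖f (n + 1)‖ ^ 2 :=
      (Equiv.sum_comp (Equiv.addRight (1 : ZMod N)) (fun y => ‖f y‖ ^ 2)).symm
    rw [e, Finset.mul_sum]
    refine Finset.sum_le_sum fun n _ => ?_
    have h2 : g2 n = b n * f (n + 1) := rfl
    rw [h2, norm_mul, mul_pow]
    have h3 : ‖b n‖ ^ 2 ≤ B ^ 2 := pow_le_pow_left₀ (norm_nonneg _) (hB n) 2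
    exact mul_le_mul_of_nonneg_right h3 (by positivity)
  rw [h0]
  refine (norm_add_le _ _).trans ?_
  linarith

/-- the real multiplier -/
def xk (δ' φ : ℝ) (k : ℤ) : ℝ := k * δ' + φ

/-- the multiplier `m` -/
def mf (δ' φ : ℝ) (s L j : ℕ) (k : ℤ) : ℝ := 2 * Real.pi * (xk δ' φ k * chi s L j k)

theorem xk_le (δ' φ δ : ℝ) (s L j : ℕ) (hδ : |δ'| ≤ δ) (k : ℤ)
    (h1 : -(((j : ℤ) + 2) * L * s + 1) ≤ k) (h2 : k ≤ ((j : ℤ) + 2) * L * s + 1) :
    |xk δ' φ k| ≤ δ * (((j : ℝ) + 2) * L * s + 1) + |φ| := by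
  unfold xk
  refine (abs_add_le _ _).trans ?_
  rw [abs_mul]
  have h3 : |(k : ℝ)| ≤ ((j : ℝ) + 2) * L * s + 1 := by
    rw [abs_le]
    constructor
    · have : ((-(((j : ℤ) + 2) * L * s + 1) : ℤ) : ℝ) ≤ (k : ℝ) := by exact_mod_cast h1
      push_cast at this
      linarith
    · have : (k : ℝ) ≤ ((((j : ℤ) + 2) * L * s + 1 : ℤ) : ℝ) := by exact_mod_cast h2
      push_cast at this
      linarith
  have := mul_le_mul h3 hδ (abs_nonneg _) (by positivity)
  linarith

theorem xk_add_one (δ' φ : ℝ) (k : ℤ) : xk δ' φ (k + 1) = xk δ' φ k + δ' := by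
  unfold xk
  push_cast
  ring

section
variable (p : ℤ) (s L j M : ℕ) [NeZero s] [NeZero M] (β θ φ δ : ℝ)

theorem ub_vma (n : ZMod (M * s)) :
    ub (p / s) θ (M * s) n = -ex (n.valMinAbs * (p / s) + θ) := by
  have h := Pool.Agent.H33.AM.rb_vma p s M θ n
  unfold rb bnd at h
  unfold ub
  have h2 : ex (((n.val : ℤ) : ℝ) * (p / s) + θ) = ex (n.valMinAbs * (p / s) + θ) := by
    linear_combination -h
  rw [h2]

theorem win_facts (hs : 3 ≤ s) (hL : 1 ≤ L) (hM : 2 * (j + 4) * L ≤ M) (n : ZMod (M * s))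
    (hn : chi s L j n.valMinAbs ≠ 0) :
    -(((j : ℤ) + 2) * L * s) ≤ n.valMinAbs ∧ n.valMinAbs < ((j : ℤ) + 2) * L * s ∧
    (n - 1).valMinAbs = n.valMinAbs - 1 ∧ (n + 1).valMinAbs = n.valMinAbs + 1 := by
  have hN := Pool.Agent.H11.AM.big_N s L j M hM
  have hLs : (1 : ℤ) ≤ L * s := by
    have h1 : (1 : ℤ) ≤ L := by exact_mod_cast hL
    have h2 : (1 : ℤ) ≤ s := by omega
    nlinarith
  obtain ⟨_, _, _, _, g5, _⟩ := Pool.Agent.H11.AM.h1 s L j n.valMinAbs (by omega) hL
  obtain ⟨g51, g52⟩ := g5 hn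
  refine ⟨g51, g52, ?_, ?_⟩
  · apply Pool.Agent.H11.AM.vma_sub_one
    linarith
  · apply Pool.Agent.H11.AM.vma_add_one
    linarith

/-- the main multiplication operator -/
def Mo : Rg (M * s) →ₗ[ℂ] Rg (M * s) := mop fun n => (mf (β - p / s) φ s L j n.valMinAbs : ℂ)

/-- the remainder -/
theorem rem_le (hs : 3 ≤ s) (hL : 1 ≤ L) (hM : 2 * (j + 4) * L ≤ M) (hδ : |β - p / s| ≤ δ)
    (f : Rg (M * s)) :
    ‖Vop (p / s) θ β φ s L j f + Mo p s L j M β φ (Gam (p / s) θ (M * s) f)‖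
      ≤ (4 * Real.pi ^ 2 * (δ * ((j + 2) * L * s + 1) + |φ|) ^ 2 + 2 * Real.pi * δ) * ‖f‖ := by
  set δ' := β - p / s with hδ'
  set X := δ * ((j + 2) * L * s + 1) + |φ| with hX
  have hδ0 : 0 ≤ δ := (abs_nonneg _).trans hδ
  have hX0 : 0 ≤ X := by positivity
  set w : ℤ → ℂ := fun k => ex (k * (p / s) + θ) with hw
  have hw1 : ∀ k, ‖w k‖ = 1 := fun k => Pool.Agent.H33.AM.norm_ex _
  set r : ℝ → ℂ := fun x => ex x - 1 - 2 * Real.pi * x * Complex.I with hr
  have hr1 : ∀ x, |x| ≤ X → ‖r x‖ ≤ 2 * Real.pi ^ 2 * X ^ 2 := by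
    intro x hx
    refine (norm_ex_taylor x).trans ?_
    have : x ^ 2 ≤ X ^ 2 := by
      rw [← sq_abs x]
      exact pow_le_pow_left₀ (abs_nonneg _) hx 2
    gcongr
  -- coefficients
  set a : ZMod (M * s) → ℂ := fun n => (chi s L j n.valMinAbs : ℂ) *
    (w n.valMinAbs * r (xk δ' φ n.valMinAbs)) with ha
  set b : ZMod (M * s) → ℂ := fun n => (chi s L j n.valMinAbs : ℂ) *
    (conj (w (n.valMinAbs + 1)) * (conj (r (xk δ' φ (n.valMinAbs + 1)))
      - 2 * Real.pi * δ' * Complex.I)) with hb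
  have hchi : ∀ k, ‖(chi s L j k : ℂ)‖ ≤ 1 := by
    intro k
    obtain ⟨h0, h1⟩ := Pool.Agent.H33.AM.chi_mem s L j k
    rw [Complex.norm_real, Real.norm_eq_abs, abs_of_nonneg h0]
    exact h1
  have hA : ∀ n, ‖a n‖ ≤ 2 * Real.pi ^ 2 * X ^ 2 := by
    intro n
    by_cases hn : chi s L j n.valMinAbs = 0
    · simp only [ha, hn, Complex.ofReal_zero, zero_mul, norm_zero]
      positivity
    · obtain ⟨h1, h2, _, _⟩ := win_facts s L j M hs hL hM n hn
      have hx := hr1 _ (xk_le δ' φ δ s L j hδ n.valMinAbs (by linarith) (by linarith))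
      simp only [ha]
      rw [norm_mul, norm_mul, hw1, one_mul]
      calc _ ≤ 1 * (2 * Real.pi ^ 2 * X ^ 2) := by
            gcongr
            exact hchi _
        _ = _ := one_mul _
  have hB : ∀ n, ‖b n‖ ≤ 2 * Real.pi ^ 2 * X ^ 2 + 2 * Real.pi * δ := by
    intro n
    by_cases hn : chi s L j n.valMinAbs = 0
    · simp only [hb, hn, Complex.ofReal_zero, zero_mul, norm_zero]
      positivity
    · obtain ⟨h1, h2, _, _⟩ := win_facts s L j M hs hL hM n hn
      have hx := hr1 _ (xk_le δ' φ δ s L j hδ (n.valMinAbs + 1) (by linarith) (by linarith))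
      simp only [hb]
      rw [norm_mul, norm_mul, RCLike.norm_conj, hw1, one_mul]
      have h3 : ‖conj (r (xk δ' φ (n.valMinAbs + 1))) - 2 * Real.pi * δ' * Complex.I‖
          ≤ 2 * Real.pi ^ 2 * X ^ 2 + 2 * Real.pi * δ := by
        refine (norm_sub_le _ _).trans (add_le_add ?_ ?_)
        · rw [RCLike.norm_conj]
          exact hx
        · rw [norm_mul, Complex.norm_I, mul_one, norm_mul, norm_mul, Complex.norm_real,
            Complex.norm_real, Real.norm_eq_abs, Real.norm_eq_abs, abs_of_pos Real.pi_pos]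
          have : ‖(2 : ℂ)‖ = 2 := by norm_num
          rw [this]
          gcongr
      calc _ ≤ 1 * (2 * Real.pi ^ 2 * X ^ 2 + 2 * Real.pi * δ) := by
            gcongr
            exact hchi _
        _ = _ := one_mul _
  have key := norm_hop_le a b _ _ hA hB f
    (Vop (p / s) θ β φ s L j f + Mo p s L j M β φ (Gam (p / s) θ (M * s) f)) ?_
  · refine key.trans (le_of_eq ?_)
    ring
  intro n
  have e1 : (Vop (p / s) θ β φ s L j f + Mo p s L j M β φ (Gam (p / s) θ (M * s) f)) n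
      = (chi s L j n.valMinAbs : ℂ) *
        ((rb (p / s) θ (M * s) n - bnd β (θ + φ) n.valMinAbs) * f (n - 1)
          + conj (rb (p / s) θ (M * s) (n + 1) - bnd β (θ + φ) (n + 1).valMinAbs) * f (n + 1))
        + (mf δ' φ s L j n.valMinAbs : ℂ) * (Complex.I * ub (p / s) θ (M * s) n * f (n - 1)
          + conj (Complex.I * ub (p / s) θ (M * s) (n + 1)) * f (n + 1)) := rfl
  rw [e1]
  by_cases hn : chi s L j n.valMinAbs = 0
  · simp only [ha, hb, mf, hn, Complex.ofReal_zero, zero_mul, mul_zero, add_zero]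
  · obtain ⟨h1, h2, h3, h4⟩ := win_facts s L j M hs hL hM n hn
    have hd : ∀ n : ZMod (M * s), rb (p / s) θ (M * s) n - bnd β (θ + φ) n.valMinAbs
        = w n.valMinAbs * (ex (xk δ' φ n.valMinAbs) - 1) := by
      intro n
      rw [Pool.Agent.H33.AM.rb_vma]
      unfold bnd
      have h5 : (n.valMinAbs : ℝ) * β + (θ + φ)
          = (n.valMinAbs * (p / s) + θ) + xk δ' φ n.valMinAbs := by
        unfold xk
        rw [hδ']
        ring
      rw [h5, Pool.Agent.H33.AM.ex_add (n.valMinAbs * (p / s) + θ) (xk δ' φ n.valMinAbs)]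
      simp only [hw]
      ring
    have hu : ∀ n : ZMod (M * s), ub (p / s) θ (M * s) n = -w n.valMinAbs := fun n => ub_vma p s M θ n
    rw [hd n, hd (n + 1), hu n, hu (n + 1), h4]
    simp only [ha, hb, mf, hr, map_sub, map_mul, map_neg, Complex.conj_I, Complex.conj_ofReal,
      map_one, map_ofNat, Complex.ofReal_mul, Complex.ofReal_ofNat]
    rw [xk_add_one]
    push_cast
    linear_combination (0 : ℂ) * Complex.I_sq

/-- the commutator -/
theorem comm_le (hs : 3 ≤ s) (hL : 1 ≤ L) (hM : 2 * (j + 4) * L ≤ M) (hδ : |β - p / s| ≤ δ)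
    (hθ : |θ| ≤ 1 / s) (f : Rg (M * s)) :
    ‖Tr (p / s) θ (M * s) (Mo p s L j M β φ f) - Mo p s L j M β φ (Tr (p / s) θ (M * s) f)‖
      ≤ 120 * (j + 3) * (δ + |φ| / s) * ‖f‖ := by
  set δ' := β - p / s with hδ'
  have hδ0 : 0 ≤ δ := (abs_nonneg _).trans hδ
  have hpi : Real.pi ≤ 3.15 := by
    have := Real.pi_lt_d2
    linarith
  have hpi0 := Real.pi_pos
  have hs0 : (0 : ℝ) < s := by
    have : 0 < s := by omega
    exact_mod_cast this
  have hL0 : (1 : ℝ) ≤ L := by exact_mod_cast hL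
  have hs1 : (1 : ℝ) ≤ s := by
    have : 1 ≤ s := by omega
    exact_mod_cast this
  set m : ZMod (M * s) → ℝ := fun n => mf δ' φ s L j n.valMinAbs with hm
  set C := 60 * ((j : ℝ) + 3) * (δ + |φ| / s) with hC
  have hC0 : 0 ≤ C := by positivity
  have hco : ∀ n, ‖rb (p / s) θ (M * s) n‖ * |m n - m (n - 1)| ≤ C := by
    intro n
    by_cases hz : chi s L j n.valMinAbs = 0 ∧ chi s L j (n - 1).valMinAbs = 0
    · have : m n - m (n - 1) = 0 := by
        simp only [hm, mf, hz.1, hz.2]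
        ring
      rw [this, abs_zero, mul_zero]
      exact hC0
    · -- no wrapping
      have hnw : (n - 1).valMinAbs = n.valMinAbs - 1 ∧
          -(((j : ℤ) + 2) * L * s) ≤ n.valMinAbs ∧ n.valMinAbs ≤ ((j : ℤ) + 2) * L * s := by
        by_cases hn : chi s L j n.valMinAbs = 0
        · have hn' : chi s L j (n - 1).valMinAbs ≠ 0 := fun h => hz ⟨hn, h⟩
          obtain ⟨h1, h2, _, h4⟩ := win_facts s L j M hs hL hM (n - 1) hn'
          rw [sub_add_cancel] at h4
          refine ⟨by rw [h4]; ring, by linarith, by linarith⟩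
        · obtain ⟨h1, h2, h3, _⟩ := win_facts s L j M hs hL hM n hn
          exact ⟨h3, h1, h2.le⟩
      obtain ⟨hw1, hw2, hw3⟩ := hnw
      set k := n.valMinAbs with hk
      have hdiff : m n - m (n - 1) = 2 * Real.pi * (δ' * chi s L j k
          + xk δ' φ (k - 1) * (chi s L j k - chi s L j (k - 1))) := by
        simp only [hm]
        rw [hw1, ← hk]
        unfold mf
        have : xk δ' φ k = xk δ' φ (k - 1) + δ' := by
          rw [← xk_add_one, sub_add_cancel]
        rw [this]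
        ring
      obtain ⟨⟨c0, c1⟩, _, g3, g4, _, _⟩ := Pool.Agent.H11.AM.h1 s L j k (by omega) hL
      have hrb2 : ‖rb (p / s) θ (M * s) n‖ ≤ 2 := norm_rb_le _ _ _ _
      have hx := xk_le δ' φ δ s L j hδ (k - 1) (by linarith) (by linarith)
      have hfirst : |δ' * chi s L j k| ≤ δ := by
        rw [abs_mul, abs_of_nonneg c0]
        have := mul_le_mul hδ c1 c0 hδ0
        linarith
      by_cases hd : (s : ℤ) ∣ k
      · have hrb : ‖rb (p / s) θ (M * s) n‖ ≤ 2 * Real.pi * (1 / s) := by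
          rw [Pool.Agent.H33.AM.rb_vma, ← hk]
          obtain ⟨q, hq⟩ := hd
          unfold bnd
          have : ((k : ℝ) * (p / s) + θ) = θ + ((q * p : ℤ) : ℝ) := by
            rw [hq]
            push_cast
            field_simp
            ring
          rw [this, Pool.Agent.H33.AM.ex_add_int]
          refine (Pool.Agent.H11.AM.norm_one_sub_ex θ).trans ?_
          gcongr
        have hsec : |xk δ' φ (k - 1) * (chi s L j k - chi s L j (k - 1))|
            ≤ (δ * (((j : ℝ) + 2) * L * s + 1) + |φ|) * (1 / L) := by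
          rw [abs_mul]
          exact mul_le_mul hx g4 (abs_nonneg _) (by positivity)
        rw [hdiff, abs_mul, abs_of_pos (by positivity : 0 < 2 * Real.pi)]
        calc ‖rb (p / s) θ (M * s) n‖ * (2 * Real.pi * |δ' * chi s L j k
              + xk δ' φ (k - 1) * (chi s L j k - chi s L j (k - 1))|)
            ≤ ‖rb (p / s) θ (M * s) n‖ * (2 * Real.pi * (|δ' * chi s L j k|
              + |xk δ' φ (k - 1) * (chi s L j k - chi s L j (k - 1))|)) := by
                gcongr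
                exact abs_add_le _ _
          _ = 2 * Real.pi * (‖rb (p / s) θ (M * s) n‖ * |δ' * chi s L j k|)
              + 2 * Real.pi * (‖rb (p / s) θ (M * s) n‖
                * |xk δ' φ (k - 1) * (chi s L j k - chi s L j (k - 1))|) := by ring
          _ ≤ 2 * Real.pi * (2 * δ) + 2 * Real.pi * (2 * Real.pi * (1 / s)
                * ((δ * (((j : ℝ) + 2) * L * s + 1) + |φ|) * (1 / L))) := by gcongr
          _ = 4 * Real.pi * δ + 4 * Real.pi ^ 2 * (δ * ((j : ℝ) + 2) + δ * (1 / (L * s))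
                + |φ| / s * (1 / L)) := by
              field_simp
              ring
          _ ≤ 4 * 3.15 * δ + 4 * 3.15 ^ 2 * (δ * ((j : ℝ) + 2) + δ * 1 + |φ| / s * 1) := by
              have i1 : (1 : ℝ) / (L * s) ≤ 1 := by
                rw [div_le_one (by positivity)]
                nlinarith
              have i2 : (1 : ℝ) / L ≤ 1 := by
                rw [div_le_one (by positivity)]
                exact hL0
              gcongr
          _ ≤ C := by
              rw [hC]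
              have i3 : 0 ≤ |φ| / s := by positivity
              have i4 : (0 : ℝ) ≤ j := by positivity
              nlinarith [mul_nonneg i4 hδ0, mul_nonneg i4 i3]
      · have hz2 : chi s L j k - chi s L j (k - 1) = 0 := by
          rw [g3 hd, sub_self]
        rw [hdiff, hz2, mul_zero, add_zero, abs_mul, abs_of_pos (by positivity : 0 < 2 * Real.pi)]
        calc ‖rb (p / s) θ (M * s) n‖ * (2 * Real.pi * |δ' * chi s L j k|)
            ≤ 2 * (2 * 3.15 * δ) := by gcongr
          _ ≤ C := by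
              rw [hC]
              have i3 : 0 ≤ |φ| / s := by positivity
              have i4 : (0 : ℝ) ≤ j := by positivity
              nlinarith [mul_nonneg i4 hδ0, mul_nonneg i4 i3]
  have key := norm_hop_le (fun n => rb (p / s) θ (M * s) n * ((m (n - 1) : ℂ) - m n))
    (fun n => conj (rb (p / s) θ (M * s) (n + 1)) * ((m (n + 1) : ℂ) - m n)) C C ?_ ?_ f
    (Tr (p / s) θ (M * s) (Mo p s L j M β φ f) - Mo p s L j M β φ (Tr (p / s) θ (M * s) f)) ?_
  · refine key.trans (le_of_eq ?_)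
    rw [hC]
    ring
  · intro n
    rw [norm_mul, ← Complex.ofReal_sub, Complex.norm_real, Real.norm_eq_abs, abs_sub_comm]
    exact hco n
  · intro n
    rw [norm_mul, RCLike.norm_conj, ← Complex.ofReal_sub, Complex.norm_real, Real.norm_eq_abs]
    have := hco (n + 1)
    rwa [add_sub_cancel_right] at this
  · intro n
    have e : (Tr (p / s) θ (M * s) (Mo p s L j M β φ f)
        - Mo p s L j M β φ (Tr (p / s) θ (M * s) f)) n
        = (rb (p / s) θ (M * s) n * ((m (n - 1) : ℂ) * f (n - 1))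
          + conj (rb (p / s) θ (M * s) (n + 1)) * ((m (n + 1) : ℂ) * f (n + 1)))
        - (m n : ℂ) * (rb (p / s) θ (M * s) n * f (n - 1)
          + conj (rb (p / s) θ (M * s) (n + 1)) * f (n + 1)) := rfl
    rw [e]
    ring

theorem Mo_le (hs : 3 ≤ s) (hL : 1 ≤ L) (hδ : |β - p / s| ≤ δ)
    (f : Rg (M * s)) :
    ‖Mo p s L j M β φ f‖ ≤ 2 * Real.pi * (δ * ((j + 2) * L * s + 1) + |φ|) * ‖f‖ := by
  set δ' := β - p / s with hδ'
  have hδ0 : 0 ≤ δ := (abs_nonneg _).trans hδ
  refine le_of_sq_le_sq ?_ (by positivity)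
  rw [mul_pow, EuclideanSpace.norm_sq_eq, EuclideanSpace.norm_sq_eq, Finset.mul_sum]
  refine Finset.sum_le_sum fun n _ => ?_
  have e : (Mo p s L j M β φ f) n = (mf δ' φ s L j n.valMinAbs : ℂ) * f n := rfl
  rw [e, norm_mul, mul_pow]
  apply mul_le_mul_of_nonneg_right _ (by positivity)
  apply pow_le_pow_left₀ (norm_nonneg _)
  rw [Complex.norm_real, Real.norm_eq_abs]
  unfold mf
  rw [abs_mul, abs_of_pos (by positivity : 0 < 2 * Real.pi)]
  apply mul_le_mul_of_nonneg_left _ (by positivity)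
  obtain ⟨⟨c0, c1⟩, _, _, _, g5, _⟩ := Pool.Agent.H11.AM.h1 s L j n.valMinAbs (by omega) hL
  by_cases hn : chi s L j n.valMinAbs = 0
  · rw [hn, mul_zero, abs_zero]
    positivity
  · obtain ⟨h1, h2⟩ := g5 hn
    have hx := xk_le δ' φ δ s L j hδ n.valMinAbs (by linarith) (by linarith)
    rw [abs_mul, abs_of_nonneg c0]
    calc _ ≤ (δ * (((j : ℝ) + 2) * L * s + 1) + |φ|) * 1 := by gcongr
      _ = _ := mul_one _

end

theorem h5 : T_H5 := by
  intro p s L j M _ _ β θ φ δ ι _ u ev E D v d1 hEB hs hL hM hδ hθ hVH hD hD16 hv hd1 hd1D f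
  have hδ0 : 0 ≤ δ := (abs_nonneg _).trans hδ
  have hpi : Real.pi ≤ 3.15 := by
    have := Real.pi_lt_d2
    linarith
  have hpi0 := Real.pi_pos
  have hs0 : (0 : ℝ) < s := by
    have : 0 < s := by omega
    exact_mod_cast this
  set X := δ * ((j + 2) * L * s + 1) + |φ| with hX
  have hX0 : 0 ≤ X := by positivity
  set c := 120 * ((j : ℝ) + 3) * (δ + |φ| / s) with hc
  have hc0 : 0 ≤ c := by positivity
  set g := pj u ev (win E d1) f with hg
  have hg1 : ‖g‖ ≤ ‖f‖ := pj_norm_le _ _ _ _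
  set G := Gam (p / s) θ (M * s) g with hG
  have hub : ∀ n, ‖Complex.I * ub (p / s) θ (M * s) n‖ ≤ 1 := by
    intro n
    unfold ub
    rw [norm_mul, Complex.norm_I, norm_neg, Pool.Agent.H33.AM.norm_ex]
    norm_num
  have hG1 : ‖G‖ ≤ 2 * ‖f‖ := by
    have := Pool.Agent.H33.AM.norm_bop_le _ 1 hub g
    calc ‖G‖ ≤ 2 * 1 * ‖g‖ := this
      _ ≤ 2 * ‖f‖ := by linarith
  -- decomposition of `G`
  have hGdec : G = pj u ev (win E D) G + pj u ev (wout E D) G := by
    have := pj_compl u ev (win E D) G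
    rw [win_compl] at this
    exact this.symm
  have hsub : win E D ∩ win E d1 = win E d1 := by
    apply Set.inter_eq_right.mpr
    intro x hx
    have hx' : |x - E| ≤ d1 := hx
    show |x - E| ≤ D
    linarith
  have hgD : pj u ev (win E D) g = g := by
    rw [hg, pj_pj, hsub]
  have hnear : ‖pj u ev (win E D) G‖ ≤ v * ‖f‖ := by
    have h1 := hVH g
    rw [hgD] at h1
    exact h1.trans (by gcongr)
  have h1 : ‖pj u ev (win E d1) (Mo p s L j M β φ (pj u ev (win E D) G))‖
      ≤ 2 * Real.pi * X * (v * ‖f‖) := by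
    refine (pj_norm_le _ _ _ _).trans ((Mo_le p s L j M β φ δ hs hL hδ _).trans ?_)
    gcongr
  have h2 : ‖pj u ev (win E d1) (Mo p s L j M β φ (pj u ev (wout E D) G))‖
      ≤ c / (D - d1) * (2 * ‖f‖) := by
    have := (g2 (Rg (M * s)) ι (Tr (p / s) θ (M * s)) u ev hEB (Mo p s L j M β φ) E d1 D c hd1
      (by linarith) hc0 (fun f => comm_le p s L j M β θ φ δ hs hL hM hδ hθ f)).1 G
    refine this.trans ?_
    have h3 : 0 ≤ c / (D - d1) := div_nonneg hc0 (by linarith)
    gcongr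
  have h3 : c / (D - d1) ≤ 2 * c / D := by
    rw [div_le_div_iff₀ (by linarith) hD]
    nlinarith
  have h4 := rem_le p s L j M β θ φ δ hs hL hM hδ g
  set R := Vop (p / s) θ β φ s L j g + Mo p s L j M β φ (Gam (p / s) θ (M * s) g) with hR
  have hV : Vop (p / s) θ β φ s L j g
      = R - Mo p s L j M β φ (pj u ev (win E D) G) - Mo p s L j M β φ (pj u ev (wout E D) G) := by
    rw [hR, ← hG]
    conv_lhs => rw [← add_sub_cancel_right (Vop (p / s) θ β φ s L j g) (Mo p s L j M β φ G)]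
    rw [sub_sub, ← map_add, ← hGdec]
  rw [hV, pj_sub, pj_sub]
  have h5 : 2 * Real.pi * δ ≤ 120 * (j + 3) * (δ + |φ| / s) / D := by
    rw [le_div_iff₀ hD]
    have i3 : 0 ≤ |φ| / s := by positivity
    have i4 : (0 : ℝ) ≤ j := by positivity
    calc 2 * Real.pi * δ * D ≤ 2 * 3.15 * δ * 16 := by gcongr
      _ ≤ _ := by nlinarith [mul_nonneg i4 hδ0, mul_nonneg i4 i3]
  calc _ ≤ ‖pj u ev (win E d1) R‖
        + ‖pj u ev (win E d1) (Mo p s L j M β φ (pj u ev (win E D) G))‖
        + ‖pj u ev (win E d1) (Mo p s L j M β φ (pj u ev (wout E D) G))‖ := by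
        refine (norm_sub_le _ _).trans (add_le_add ?_ le_rfl)
        exact norm_sub_le _ _
    _ ≤ (4 * Real.pi ^ 2 * X ^ 2 + 2 * Real.pi * δ) * ‖f‖ + 2 * Real.pi * X * (v * ‖f‖)
        + 2 * c / D * (2 * ‖f‖) := by
        refine add_le_add (add_le_add ?_ h1) ?_
        · refine (pj_norm_le _ _ _ _).trans (h4.trans ?_)
          gcongr
        · refine h2.trans ?_
          gcongr
    _ ≤ (4 * 3.15 ^ 2 * X ^ 2 + 120 * (j + 3) * (δ + |φ| / s) / D) * ‖f‖
        + 2 * 3.15 * X * (v * ‖f‖) + 2 * c / D * (2 * ‖f‖) := by gcongr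
    _ = (6.3 * X * v + (120 * (j + 3) * (δ + |φ| / s) / D + 4 * (c / D)) + 39.69 * X ^ 2)
        * ‖f‖ := by ring
    _ ≤ (7 * X * v + 600 * (j + 3) * (δ + |φ| / s) / D + 40 * X ^ 2) * ‖f‖ := by
        apply mul_le_mul_of_nonneg_right _ (norm_nonneg _)
        have i1 : 120 * ((j : ℝ) + 3) * (δ + |φ| / s) / D + 4 * (c / D)
            = 600 * (j + 3) * (δ + |φ| / s) / D := by
          rw [hc]
          ring
        rw [i1]
        have i2 : 0 ≤ X * v := by positivity
        have i3 : 0 ≤ X ^ 2 := by positivity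
        nlinarith

end Pool.Agent.H77.AM
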